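import Pool.Agent.Recon.EpsNet

open Finset

set_option linter.unusedSectionVars false

namespace Pool.Agent.Recon

variable {V : Type*} [Fintype V] [DecidableEq V]

/-- local factor used in the exponential moment bound -/
noncomputable def gf (J H : Finset V) (u : V) (b : Bool) : ℝ :=
  if u ∈ J then (if b then 1 else 0) else if u ∈ H then 1 else (if b then 1 / 2 else 1)

lemma gf_nonneg (J H : Finset V) (u : V) (b : Bool) : 0 ≤ gf J H u b := by
  unfold gf
  split_ifs <;> norm_num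

lemma gf_prod (J H X : Finset V) (hJH : J ⊆ H) (ω : V → Bool) (hω : ∀ u ∈ J, ω u = true) :
    ∏ u ∈ X, gf J H u (ω u) = (1 / 2) ^ ((X \ H).filter (fun u => ω u = true)).card := by
  classical
  have h1 : ∀ u ∈ X, gf J H u (ω u) = if (u ∉ H ∧ ω u = true) then (1 / 2 : ℝ) else 1 := by
    intro u _
    unfold gf
    by_cases h1 : u ∈ J
    · have h2 := hJH h1
      have h3 := hω u h1
      simp [h1, h2, h3]
    · by_cases h2 : u ∈ H
      · simp [h1, h2]
      · by_cases h3 : ω u = true <;> simp [h1, h2, h3]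
  rw [Finset.prod_congr rfl h1, Finset.prod_ite]
  simp only [Finset.prod_const, one_pow, mul_one]
  congr 2
  ext u
  simp only [Finset.mem_filter, Finset.mem_sdiff]
  tauto

lemma gf_exp {q : ℝ} (J H X : Finset V) (hJH : J ⊆ H) (hJX : J ⊆ X) :
    ∏ u ∈ X, (∑ b, bw q b * gf J H u b) = q ^ J.card * (1 - q / 2) ^ (X \ H).card := by
  classical
  have h1 : ∀ u ∈ X, (∑ b, bw q b * gf J H u b)
      = (if u ∈ J then q else 1) * (if u ∈ H then 1 else 1 - q / 2) := by
    intro u _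
    unfold gf bw
    by_cases h1 : u ∈ J
    · have h2 := hJH h1
      simp [h1, h2]
    · by_cases h2 : u ∈ H
      · simp [h1, h2]
      · simp [h1, h2]; ring
  rw [Finset.prod_congr rfl h1, Finset.prod_mul_distrib, Finset.prod_ite, Finset.prod_ite]
  simp only [Finset.prod_const, one_pow, mul_one, one_mul]
  congr 2
  · congr 1
    ext u
    simp only [Finset.mem_filter]
    exact ⟨fun h => h.2, fun h => ⟨hJX h, h⟩⟩
  · congr 1
    ext u
    simp only [Finset.mem_filter, Finset.mem_sdiff]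

/-- For a fixed set `Z`, all of whose vertices have deficient neighbourhoods. -/
lemma deg_fixed {q : ℝ} (hq0 : 0 ≤ q) (hq1 : q ≤ 1) (V' : Finset V)
    (hull : Finset V → Finset V) (Js : Finset (Finset V)) (hJ : ∀ J ∈ Js, J ⊆ hull J)
    (m L : ℕ) (Z : Finset V)
    (hsize : ∀ J ∈ Js, m ≤ ((V' \ Z) \ hull J).card) :
    Pr (bw q) (fun ω : Sym2 V → Bool => ∀ v ∈ Z, ∃ J ∈ Js, J ⊆ V' \ Z ∧
        (∀ u ∈ J, ω s(v, u) = true) ∧
        (((V' \ Z) \ hull J).filter (fun u => ω s(v, u) = true)).card < L)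
      ≤ (∑ J ∈ Js, q ^ J.card * 2 ^ L * (1 - q / 2) ^ m) ^ Z.card := by
  classical
  set X := V' \ Z with hX
  set Js' := Js.filter (fun J => J ⊆ X) with hJs'
  -- the bounding function
  have hb := Pr_le_Ex (α := Sym2 V) (bw_nonneg hq0 hq1)
    (S := fun ω : Sym2 V → Bool => ∀ v ∈ Z, ∃ J ∈ Js, J ⊆ X ∧
        (∀ u ∈ J, ω s(v, u) = true) ∧
        ((X \ hull J).filter (fun u => ω s(v, u) = true)).card < L)
    (g := fun ω => ∏ v : Z, ∑ J ∈ Js', 2 ^ L * ∏ u ∈ X, gf J (hull J) u (ω s((v : V), u)))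
    (by
      intro ω
      apply Finset.prod_nonneg
      intro v _
      apply Finset.sum_nonneg
      intro J _
      apply mul_nonneg (by positivity)
      exact Finset.prod_nonneg (fun u _ => gf_nonneg _ _ _ _))
    (by
      intro ω hω
      rw [← Finset.prod_const_one (s := (Finset.univ : Finset Z)) (M := ℝ)]
      apply Finset.prod_le_prod (fun _ _ => zero_le_one)
      intro v _
      obtain ⟨J, hJ1, hJ2, hJ3, hJ4⟩ := hω v v.2
      have hterm : (1 : ℝ) ≤ 2 ^ L * ∏ u ∈ X, gf J (hull J) u (ω s((v : V), u)) := by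
        rw [gf_prod J (hull J) X (hJ J hJ1) (fun u => ω s((v : V), u)) hJ3]
        exact half_pow_le hJ4
      refine le_trans hterm ?_
      apply Finset.single_le_sum
        (f := fun J => (2 : ℝ) ^ L * ∏ u ∈ X, gf J (hull J) u (ω s((v : V), u)))
      · intro J _
        apply mul_nonneg (by positivity)
        exact Finset.prod_nonneg (fun u _ => gf_nonneg _ _ _ _)
      · rw [hJs', Finset.mem_filter]
        exact ⟨hJ1, hJ2⟩)
  refine le_trans hb ?_
  -- expand
  have h1 : ∀ ω : Sym2 V → Bool,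
      ∏ v : Z, ∑ J ∈ Js', 2 ^ L * ∏ u ∈ X, gf J (hull J) u (ω s((v : V), u))
      = ∑ p ∈ Fintype.piFinset (fun _ : Z => Js'),
          (∏ v : Z, (2 : ℝ) ^ L) * ∏ i ∈ (Finset.univ : Finset Z) ×ˢ X,
            gf (p i.1) (hull (p i.1)) i.2 (ω s((i.1 : V), i.2)) := by
    intro ω
    rw [Finset.prod_univ_sum]
    apply Finset.sum_congr rfl
    intro p _
    rw [Finset.prod_mul_distrib, Finset.prod_product]
  simp_rw [h1]
  rw [Ex_sum]
  have hinj : Set.InjOn (fun i : Z × V => s((i.1 : V), i.2))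
      (((Finset.univ : Finset Z) ×ˢ X : Finset (Z × V)) : Set (Z × V)) := by
    rintro ⟨v, u⟩ h1 ⟨v', u'⟩ h2 heq
    simp only [Finset.coe_product, Set.mem_prod, Finset.mem_coe, Finset.mem_univ, true_and] at h1 h2
    simp only [Sym2.eq_iff] at heq
    rcases heq with ⟨h3, h4⟩ | ⟨h3, h4⟩
    · ext1
      · exact Subtype.ext h3
      · exact h4
    · exfalso
      rw [hX, Finset.mem_sdiff] at h2
      rw [← h3] at h2
      exact h2.2 v.2
  have h2 : ∀ p ∈ Fintype.piFinset (fun _ : Z => Js'),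
      Ex (bw q) (fun ω : Sym2 V → Bool => (∏ v : Z, (2 : ℝ) ^ L) *
        ∏ i ∈ (Finset.univ : Finset Z) ×ˢ X,
            gf (p i.1) (hull (p i.1)) i.2 (ω s((i.1 : V), i.2)))
      ≤ ∏ v : Z, q ^ (p v).card * 2 ^ L * (1 - q / 2) ^ m := by
    intro p hp
    rw [Fintype.mem_piFinset] at hp
    rw [Ex_const_mul]
    rw [Ex_prod_inj (bw_sum q) _ (fun i : Z × V => s((i.1 : V), i.2)) hinj
      (fun i b => gf (p i.1) (hull (p i.1)) i.2 b)]
    rw [Finset.prod_product, ← Finset.prod_mul_distrib]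
    apply Finset.prod_le_prod
    · intro v _
      apply mul_nonneg (by positivity)
      apply Finset.prod_nonneg
      intro u _
      apply Finset.sum_nonneg
      intro b _
      exact mul_nonneg (bw_nonneg hq0 hq1 b) (gf_nonneg _ _ _ _)
    · intro v _
      have hpv := hp v
      rw [hJs', Finset.mem_filter] at hpv
      rw [gf_exp (p v) (hull (p v)) X (hJ _ hpv.1) hpv.2]
      have h3 : (1 - q / 2) ^ (X \ hull (p v)).card ≤ (1 - q / 2) ^ m :=
        pow_le_pow_of_le_one (by linarith) (by linarith) (hsize _ hpv.1)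
      calc (2 : ℝ) ^ L * (q ^ (p v).card * (1 - q / 2) ^ (X \ hull (p v)).card)
          ≤ 2 ^ L * (q ^ (p v).card * (1 - q / 2) ^ m) := by
            apply mul_le_mul_of_nonneg_left _ (by positivity)
            exact mul_le_mul_of_nonneg_left h3 (by positivity)
        _ = _ := by ring
  refine le_trans (Finset.sum_le_sum h2) ?_
  rw [← Finset.prod_univ_sum (fun _ : Z => Js')
    (fun _ J => q ^ J.card * 2 ^ L * (1 - q / 2) ^ m)]
  rw [Finset.prod_const, Finset.card_univ, Fintype.card_coe]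
  have hh : 0 ≤ 1 - q / 2 := by linarith
  apply pow_le_pow_left₀
  · apply Finset.sum_nonneg
    intro J _
    positivity
  · apply Finset.sum_le_sum_of_subset_of_nonneg (Finset.filter_subset _ _)
    intro J _ _
    positivity

/-- Union bound over all sets `Z` of a given size. -/
theorem deg_union {q : ℝ} (hq0 : 0 ≤ q) (hq1 : q ≤ 1) (V' : Finset V)
    (hull : Finset V → Finset V) (Js : Finset (Finset V)) (hJ : ∀ J ∈ Js, J ⊆ hull J)
    (m L z : ℕ)
    (hsize : ∀ J ∈ Js, ∀ Z ⊆ V', Z.card = z → m ≤ ((V' \ Z) \ hull J).card) :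
    Pr (bw q) (fun ω : Sym2 V → Bool => ∃ Z ⊆ V', Z.card = z ∧ ∀ v ∈ Z, ∃ J ∈ Js, J ⊆ V' \ Z ∧
        (∀ u ∈ J, ω s(v, u) = true) ∧
        (((V' \ Z) \ hull J).filter (fun u => ω s(v, u) = true)).card < L)
      ≤ (V'.card.choose z : ℝ) * (∑ J ∈ Js, q ^ J.card * 2 ^ L * (1 - q / 2) ^ m) ^ z := by
  classical
  have h1 : Pr (bw q) (fun ω : Sym2 V → Bool => ∃ Z ⊆ V', Z.card = z ∧ ∀ v ∈ Z, ∃ J ∈ Js,
        J ⊆ V' \ Z ∧ (∀ u ∈ J, ω s(v, u) = true) ∧
        (((V' \ Z) \ hull J).filter (fun u => ω s(v, u) = true)).card < L)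
      ≤ ∑ Z ∈ Finset.powersetCard z V', Pr (bw q) (fun ω : Sym2 V → Bool => ∀ v ∈ Z, ∃ J ∈ Js,
        J ⊆ V' \ Z ∧ (∀ u ∈ J, ω s(v, u) = true) ∧
        (((V' \ Z) \ hull J).filter (fun u => ω s(v, u) = true)).card < L) := by
    simp_rw [Pr_eq]
    rw [← Ex_sum]
    rw [← Pr_eq]
    apply Pr_le_Ex (bw_nonneg hq0 hq1)
    · intro ω
      apply Finset.sum_nonneg
      intro Z _
      split_ifs <;> norm_num
    · rintro ω ⟨Z, hZ1, hZ2, hZ3⟩
      calc (1 : ℝ) = (if ∀ v ∈ Z, ∃ J ∈ Js,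
            J ⊆ V' \ Z ∧ (∀ u ∈ J, ω s(v, u) = true) ∧
            (((V' \ Z) \ hull J).filter (fun u => ω s(v, u) = true)).card < L
            then (1 : ℝ) else 0) := by rw [if_pos hZ3]
        _ ≤ _ := by
            apply Finset.single_le_sum (f := fun Z : Finset V => (if ∀ v ∈ Z, ∃ J ∈ Js,
              J ⊆ V' \ Z ∧ (∀ u ∈ J, ω s(v, u) = true) ∧
              (((V' \ Z) \ hull J).filter (fun u => ω s(v, u) = true)).card < L
              then (1 : ℝ) else 0))
            · intro Z' _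
              split_ifs <;> norm_num
            · rw [Finset.mem_powersetCard]
              exact ⟨hZ1, hZ2⟩
  refine le_trans h1 ?_
  have h2 : ∀ Z ∈ Finset.powersetCard z V', Pr (bw q) (fun ω : Sym2 V → Bool => ∀ v ∈ Z,
        ∃ J ∈ Js, J ⊆ V' \ Z ∧ (∀ u ∈ J, ω s(v, u) = true) ∧
        (((V' \ Z) \ hull J).filter (fun u => ω s(v, u) = true)).card < L)
      ≤ (∑ J ∈ Js, q ^ J.card * 2 ^ L * (1 - q / 2) ^ m) ^ z := by
    intro Z hZ
    rw [Finset.mem_powersetCard] at hZ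
    have := deg_fixed hq0 hq1 V' hull Js hJ m L Z (fun J hJ => hsize J hJ Z hZ.1 hZ.2)
    rwa [hZ.2] at this
  refine le_trans (Finset.sum_le_card_nsmul _ _ _ h2) ?_
  rw [Finset.card_powersetCard, nsmul_eq_mul]

end Pool.Agent.Recon
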