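import Pool.Agent.Recon.EpsNet

open Finset

set_option linter.unusedSectionVars false

namespace Pool.Agent.Recon

variable {V : Type*} [Fintype V] [DecidableEq V]

/-- number of present pairs inside `W` -/
def eW (ω : Sym2 V → Bool) (W : Finset V) : ℕ := (W.sym2.filter (fun e => ω e = true)).card

lemma Pr_eW {q : ℝ} (hq0 : 0 ≤ q) (hq1 : q ≤ 1) {T : ℝ} (hT : 1 ≤ T) (W : Finset V) (M : ℕ) :
    Pr (bw q) (fun ω : Sym2 V → Bool => M ≤ eW ω W)
      ≤ (T⁻¹) ^ M * (1 + q * (T - 1)) ^ (W.sym2.card) := by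
  have hT0 : 0 < T := by linarith
  have h := Ex_prod_inj (α := Sym2 V) (bw_sum q) W.sym2 (fun e => e) (fun _ _ _ _ h => h)
    (fun _ b => if b then T else 1)
  have h2 : ∀ e ∈ W.sym2, ∑ b, bw q b * (if b = true then T else 1) = 1 + q * (T - 1) := by
    intro e _
    simp [bw]
    ring
  rw [Finset.prod_congr rfl h2, Finset.prod_const] at h
  rw [← h, ← Ex_const_mul]
  apply Pr_le_Ex (bw_nonneg hq0 hq1)
  · intro ω
    apply mul_nonneg (by positivity)
    apply Finset.prod_nonneg
    intro e _
    split_ifs <;> linarith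
  · intro ω hω
    have h3 : ∏ i ∈ W.sym2, (if ω i = true then T else 1) = T ^ (eW ω W) := by
      rw [Finset.prod_ite]
      simp [eW]
    rw [h3]
    have h4 : T ^ M ≤ T ^ (eW ω W) := pow_le_pow_right₀ hT hω
    have h5 : (T⁻¹) ^ M * T ^ M = 1 := by
      rw [← mul_pow, inv_mul_cancel₀ (ne_of_gt hT0), one_pow]
    calc (1 : ℝ) = (T⁻¹) ^ M * T ^ M := h5.symm
      _ ≤ _ := mul_le_mul_of_nonneg_left h4 (by positivity)

lemma choose_le (n w : ℕ) (hw : 0 < w) : ((n.choose w : ℕ) : ℝ) ≤ (Real.exp 1 * n / w) ^ w := by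
  have h1 : ((n.choose w : ℕ) : ℝ) ≤ (n : ℝ) ^ w / (w.factorial : ℝ) := Nat.choose_le_pow_div w n
  have h2 : (w : ℝ) ^ w / (w.factorial : ℝ) ≤ Real.exp w :=
    Real.pow_div_factorial_le_exp (w : ℝ) (by positivity) w
  have hw' : (0 : ℝ) < w := by exact_mod_cast hw
  have h3 : (Real.exp 1 * n / w) ^ w = Real.exp w * (n : ℝ) ^ w / (w : ℝ) ^ w := by
    rw [div_pow, mul_pow, ← Real.exp_nat_mul, mul_one]
  rw [h3, le_div_iff₀ (by positivity)]
  calc ((n.choose w : ℕ) : ℝ) * (w : ℝ) ^ w ≤ (n : ℝ) ^ w / (w.factorial : ℝ) * (w : ℝ) ^ w :=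
        mul_le_mul_of_nonneg_right h1 (by positivity)
    _ = ((w : ℝ) ^ w / (w.factorial : ℝ)) * (n : ℝ) ^ w := by ring
    _ ≤ Real.exp w * (n : ℝ) ^ w := mul_le_mul_of_nonneg_right h2 (by positivity)

lemma sum_arith_geom (m : ℕ) :
    ∑ w ∈ Finset.range m, ((w : ℝ) + 1) * (1 / 2) ^ w = 4 - (2 * m + 4) * (1 / 2) ^ m := by
  induction m with
  | zero => norm_num
  | succ m ih =>
    rw [Finset.sum_range_succ, ih]
    push_cast
    ring

/-- Small vertex sets are sparse. -/
theorem sparse {C : ℝ} (hC : 0 < C) {D : ℕ} (hD : 2 ≤ D) (hV : 0 < Fintype.card V)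
    {q : ℝ} (hq : q = C / Fintype.card V) (hq1 : q ≤ 1) {a : ℝ} (ha : a = Real.exp 1 * C / D)
    (ha4 : 8 * Real.exp 1 * a ≤ 4 ^ D) (S : ℕ) (hS : (S : ℝ) * (4 * a) ≤ Fintype.card V) :
    Pr (bw q) (fun ω : Sym2 V → Bool => ∃ W : Finset V, W.Nonempty ∧ W.card ≤ S ∧
      D * W.card ≤ eW ω W) ≤ 8 * a / Fintype.card V := by
  classical
  set n := Fintype.card V with hn
  have hn0 : (0 : ℝ) < n := by exact_mod_cast hV
  have hq0 : 0 ≤ q := by rw [hq]; positivity
  have hD0 : (0 : ℝ) < D := by
    have : 0 < D := by omega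
    exact_mod_cast this
  have ha0 : 0 < a := by rw [ha]; positivity
  have he : 0 < Real.exp 1 := Real.exp_pos 1
  -- union bound
  have h1 : Pr (bw q) (fun ω : Sym2 V → Bool => ∃ W : Finset V, W.Nonempty ∧ W.card ≤ S ∧
      D * W.card ≤ eW ω W) ≤ ∑ w ∈ Finset.Icc 1 S, ∑ W ∈ Finset.powersetCard w Finset.univ,
        Pr (bw q) (fun ω : Sym2 V → Bool => D * w ≤ eW ω W) := by
    have : ∀ w, ∑ W ∈ Finset.powersetCard w Finset.univ,
        Pr (bw q) (fun ω : Sym2 V → Bool => D * w ≤ eW ω W)
        = Ex (bw q) (fun ω : Sym2 V → Bool => ∑ W ∈ Finset.powersetCard w Finset.univ,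
          if D * w ≤ eW ω W then (1 : ℝ) else 0) := by
      intro w
      rw [Ex_sum]
      exact Finset.sum_congr rfl (fun W _ => Pr_eq _ _)
    simp_rw [this]
    rw [← Ex_sum]
    apply Pr_le_Ex (bw_nonneg hq0 hq1)
    · intro ω
      apply Finset.sum_nonneg
      intro w _
      apply Finset.sum_nonneg
      intro W _
      split_ifs <;> norm_num
    · rintro ω ⟨W, hW1, hW2, hW3⟩
      calc (1 : ℝ) = (if D * W.card ≤ eW ω W then (1 : ℝ) else 0) := by rw [if_pos hW3]
        _ ≤ ∑ W' ∈ Finset.powersetCard W.card Finset.univ,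
              (if D * W.card ≤ eW ω W' then (1 : ℝ) else 0) := by
            apply Finset.single_le_sum (f := fun W' : Finset V =>
              (if D * W.card ≤ eW ω W' then (1 : ℝ) else 0))
            · intro W' _
              split_ifs <;> norm_num
            · simp [Finset.mem_powersetCard]
        _ ≤ _ := by
            apply Finset.single_le_sum (f := fun w => ∑ W' ∈ Finset.powersetCard w Finset.univ,
              (if D * w ≤ eW ω W' then (1 : ℝ) else 0))
            · intro w _
              apply Finset.sum_nonneg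
              intro W' _
              split_ifs <;> norm_num
            · rw [Finset.mem_Icc]
              exact ⟨hW1.card_pos, hW2⟩
  refine le_trans h1 ?_
  -- bound for each size
  have h2 : ∀ w ∈ Finset.Icc 1 S, ∑ W ∈ Finset.powersetCard w Finset.univ,
        Pr (bw q) (fun ω : Sym2 V → Bool => D * w ≤ eW ω W)
        ≤ (2 * a / n) * ((w : ℝ) * (1 / 2) ^ (w - 1)) := by
    intro w hw
    rw [Finset.mem_Icc] at hw
    have hw0 : (0 : ℝ) < w := by
      have : 0 < w := by omega
      exact_mod_cast this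
    have hwS : (w : ℝ) ≤ S := by exact_mod_cast hw.2
    have hw4 : (w : ℝ) * (4 * a) ≤ n := by
      refine le_trans ?_ hS
      exact mul_le_mul_of_nonneg_right hwS (by positivity)
    have haw : a * w / n ≤ 1 / 4 := by
      rw [div_le_div_iff₀ hn0 (by norm_num)]
      linarith
    set T : ℝ := D * n / (C * w) with hT
    have hT1 : 1 ≤ T := by
      rw [hT, le_div_iff₀ (by positivity), one_mul]
      have h3 : C * w ≤ (a * D) * w := by
        have : a * D = Real.exp 1 * C := by rw [ha]; field_simp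
        rw [this]
        have h5 : 1 ≤ Real.exp 1 := Real.one_le_exp (by norm_num)
        have h6 := mul_le_mul_of_nonneg_right h5 (by positivity : 0 ≤ C * w)
        linarith
      have h4 : a * w ≤ n := by nlinarith
      calc C * w ≤ (a * D) * w := h3
        _ = D * (a * w) := by ring
        _ ≤ D * n := mul_le_mul_of_nonneg_left h4 hD0.le
    have hterm : ∀ W ∈ Finset.powersetCard w (Finset.univ : Finset V),
        Pr (bw q) (fun ω : Sym2 V → Bool => D * w ≤ eW ω W) ≤ ((a * w / n) ^ D) ^ w := by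
      intro W hW
      rw [Finset.mem_powersetCard] at hW
      refine le_trans (Pr_eW hq0 hq1 hT1 W (D * w)) ?_
      have hs2 : W.sym2.card ≤ w ^ 2 := by
        rw [Finset.card_sym2, hW.2, Nat.choose_two_right]
        apply Nat.div_le_of_le_mul
        have : w * (w + 1) ≤ 2 * w ^ 2 := by nlinarith [hw.1]
        calc (w + 1) * (w + 1 - 1) = w * (w + 1) := by rw [Nat.add_sub_cancel]; ring
          _ ≤ 2 * w ^ 2 := this
      have hb1 : (1 : ℝ) ≤ 1 + q * (T - 1) := by nlinarith
      have hexp : (1 + q * (T - 1)) ^ (W.sym2.card) ≤ Real.exp (D * w) := by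
        calc (1 + q * (T - 1)) ^ (W.sym2.card) ≤ (1 + q * (T - 1)) ^ (w ^ 2) :=
              pow_le_pow_right₀ hb1 hs2
          _ ≤ (Real.exp (q * T)) ^ (w ^ 2) := by
              apply pow_le_pow_left₀ (by linarith)
              have := Real.add_one_le_exp (q * T)
              nlinarith
          _ = Real.exp (D * w) := by
              rw [← Real.exp_nat_mul]
              congr 1
              rw [hq, hT]
              push_cast
              field_simp
      have hTinv : T⁻¹ = C * w / (D * n) := by rw [hT, inv_div]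
      calc (T⁻¹) ^ (D * w) * (1 + q * (T - 1)) ^ (W.sym2.card)
          ≤ (T⁻¹) ^ (D * w) * Real.exp (D * w) :=
            mul_le_mul_of_nonneg_left hexp (by positivity)
        _ = (C * w / (D * n) * Real.exp 1) ^ (D * w) := by
            rw [hTinv, mul_pow, ← Real.exp_nat_mul]
            push_cast
            ring_nf
        _ = ((a * w / n) ^ D) ^ w := by
            rw [← pow_mul]
            congr 1
            rw [ha]
            field_simp
    have hsum : ∑ W ∈ Finset.powersetCard w (Finset.univ : Finset V),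
        Pr (bw q) (fun ω : Sym2 V → Bool => D * w ≤ eW ω W)
        ≤ (n.choose w : ℝ) * ((a * w / n) ^ D) ^ w := by
      refine le_trans (Finset.sum_le_card_nsmul _ _ _ hterm) ?_
      rw [Finset.card_powersetCard, Finset.card_univ, nsmul_eq_mul]
    refine le_trans hsum ?_
    have hch := choose_le n w (by omega)
    have hx0 : 0 ≤ a * w / n := by positivity
    -- (e n / w) (a w / n)^D ≤ c w / n
    have hkey : Real.exp 1 * n / w * (a * w / n) ^ D ≤ (2 * a) * (w / n) := by
      have hsplit : (a * w / n) ^ D ≤ (a * w / n) ^ 2 * (1 / 4) ^ (D - 2) := by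
        have : (a * w / n) ^ D = (a * w / n) ^ 2 * (a * w / n) ^ (D - 2) := by
          rw [← pow_add]; congr 1; omega
        rw [this]
        apply mul_le_mul_of_nonneg_left _ (by positivity)
        exact pow_le_pow_left₀ hx0 haw _
      have h4D : (1 / 4 : ℝ) ^ (D - 2) * 4 ^ D = 16 := by
        have : (4 : ℝ) ^ D = 4 ^ (D - 2) * 16 := by
          have : (4 : ℝ) ^ D = 4 ^ (D - 2) * 4 ^ 2 := by
            rw [← pow_add]; congr 1; omega
          rw [this]; norm_num
        rw [this, ← mul_assoc, ← mul_pow]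
        norm_num
      have hp : (1 / 4 : ℝ) ^ (D - 2) * (8 * Real.exp 1 * a) ≤ 16 := by
        calc (1 / 4 : ℝ) ^ (D - 2) * (8 * Real.exp 1 * a) ≤ (1 / 4 : ℝ) ^ (D - 2) * 4 ^ D :=
              mul_le_mul_of_nonneg_left ha4 (by positivity)
          _ = 16 := h4D
      calc Real.exp 1 * n / w * (a * w / n) ^ D
          ≤ Real.exp 1 * n / w * ((a * w / n) ^ 2 * (1 / 4) ^ (D - 2)) :=
            mul_le_mul_of_nonneg_left hsplit (by positivity)
        _ = ((1 / 4 : ℝ) ^ (D - 2) * (8 * Real.exp 1 * a)) * (a / 8) * (w / n) := by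
            field_simp
        _ ≤ 16 * (a / 8) * (w / n) := by
            apply mul_le_mul_of_nonneg_right _ (by positivity)
            apply mul_le_mul_of_nonneg_right hp (by positivity)
        _ = (2 * a) * (w / n) := by ring
    have hhalf : (2 * a) * ((w : ℝ) / n) ≤ 1 / 2 := by
      have : (2 * a) * ((w : ℝ) / n) = 2 * (a * w / n) := by ring
      rw [this]; linarith
    have hk0 : 0 ≤ Real.exp 1 * n / w * (a * w / n) ^ D := by positivity
    calc (n.choose w : ℝ) * ((a * w / n) ^ D) ^ w
        ≤ (Real.exp 1 * n / w) ^ w * ((a * w / n) ^ D) ^ w :=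
          mul_le_mul_of_nonneg_right hch (by positivity)
      _ = (Real.exp 1 * n / w * (a * w / n) ^ D) ^ w := by rw [mul_pow]
      _ ≤ ((2 * a) * (w / n)) ^ w := pow_le_pow_left₀ hk0 hkey _
      _ = ((2 * a) * (w / n)) * ((2 * a) * (w / n)) ^ (w - 1) := by
          rw [← pow_succ']; congr 1; omega
      _ ≤ ((2 * a) * (w / n)) * (1 / 2) ^ (w - 1) := by
          apply mul_le_mul_of_nonneg_left _ (by positivity)
          exact pow_le_pow_left₀ (by positivity) hhalf _
      _ = (2 * a / n) * ((w : ℝ) * (1 / 2) ^ (w - 1)) := by ring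
  refine le_trans (Finset.sum_le_sum h2) ?_
  rw [← Finset.mul_sum]
  have h3 : ∑ w ∈ Finset.Icc 1 S, ((w : ℝ) * (1 / 2) ^ (w - 1)) ≤ 4 := by
    have : ∑ w ∈ Finset.Icc 1 S, ((w : ℝ) * (1 / 2) ^ (w - 1))
        = ∑ w ∈ Finset.range S, ((w : ℝ) + 1) * (1 / 2) ^ w := by
      apply Finset.sum_nbij' (fun w => w - 1) (fun w => w + 1)
      · intro w hw
        simp only [Finset.mem_Icc] at hw
        simp only [Finset.mem_range]
        omega
      · intro w hw
        simp only [Finset.mem_range] at hw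
        simp only [Finset.mem_Icc]
        omega
      · intro w hw
        simp only [Finset.mem_Icc] at hw
        omega
      · intro w _
        omega
      · intro w hw
        simp only [Finset.mem_Icc] at hw
        have : ((w - 1 : ℕ) : ℝ) + 1 = w := by
          rw [Nat.cast_sub hw.1]; push_cast; ring
        rw [this]
    rw [this, sum_arith_geom]
    have : 0 ≤ (2 * (S : ℝ) + 4) * (1 / 2) ^ S := by positivity
    linarith
  calc 2 * a / n * ∑ w ∈ Finset.Icc 1 S, ((w : ℝ) * (1 / 2) ^ (w - 1)) ≤ 2 * a / n * 4 :=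
        mul_le_mul_of_nonneg_left h3 (by positivity)
    _ = 8 * a / n := by ring

end Pool.Agent.Recon
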