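import Pool.Agent.Recon.Geometry
import Pool.Agent.Recon.Sparse

open Finset Module

set_option linter.unusedSectionVars false

namespace Pool.Agent.Recon

variable {E : Type*} [NormedAddCommGroup E] [InnerProductSpace ℝ E] [FiniteDimensional ℝ E]
variable {V : Type*} [Fintype V] [DecidableEq V]

/-- the pair `e` has different lengths in the two placements -/
def badE (x y : V → E) : Sym2 V → Prop :=
  Sym2.lift ⟨fun u v => dist (y u) (y v) ≠ dist (x u) (x v), fun u v => by
    show (dist (y u) (y v) ≠ dist (x u) (x v)) = (dist (y v) (y u) ≠ dist (x v) (x u))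
    rw [dist_comm (y u), dist_comm (x u)]⟩

@[simp] lemma badE_mk (x y : V → E) (u v : V) :
    badE x y s(u, v) ↔ dist (y u) (y v) ≠ dist (x u) (x v) := Iff.rfl

/-- adjacency in the revealed graph -/
def Adj (ω : Sym2 V → Bool) (u v : V) : Prop := u ≠ v ∧ ω s(u, v) = true

/-- placements consistent with the revealed distances -/
def Cons (x : V → E) (ω : Sym2 V → Bool) (y : V → E) : Prop :=
  ∀ u v, Adj ω u v → dist (y u) (y v) = dist (x u) (x v)

lemma pairs_le (W : Finset V) (R : V → Finset V) (P : Sym2 V → Prop) [DecidablePred P]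
    (hR : ∀ v ∈ W, R v ⊆ W) (hP : ∀ v ∈ W, ∀ u ∈ R v, P s(v, u)) :
    ∑ v ∈ W, (R v).card ≤ 2 * (W.sym2.filter P).card := by
  classical
  set S : Finset (V × V) := (W ×ˢ W).filter (fun p => p.2 ∈ R p.1) with hS
  have hcard : S.card = ∑ v ∈ W, (R v).card := by
    rw [hS, Finset.card_filter, Finset.sum_product]
    apply Finset.sum_congr rfl
    intro v hv
    rw [← Finset.card_filter]
    congr 1
    ext u
    simp only [Finset.mem_filter]
    exact ⟨fun h => h.2, fun h => ⟨hR v hv h, h⟩⟩
  rw [← hcard]
  apply Finset.card_le_mul_card_image_of_maps_to (f := fun p : V × V => s(p.1, p.2))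
  · rintro ⟨v, u⟩ hp
    rw [hS, Finset.mem_filter, Finset.mem_product] at hp
    rw [Finset.mem_filter]
    refine ⟨?_, hP v hp.1.1 u hp.2⟩
    rw [Finset.mk_mem_sym2_iff]
    exact hp.1
  · intro e _
    induction e using Sym2.ind with
    | _ a b =>
      have hsub : S.filter (fun p : V × V => s(p.1, p.2) = s(a, b)) ⊆ {(a, b), (b, a)} := by
        rintro ⟨v, u⟩ hp
        rw [Finset.mem_filter] at hp
        have h := hp.2
        simp only [Sym2.eq_iff] at h
        simp only [Finset.mem_insert, Finset.mem_singleton, Prod.mk.injEq]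
        exact h
      refine le_trans (Finset.card_le_card hsub) ?_
      exact Finset.card_le_two

/-- The rigid core, deterministic version. -/
theorem det_main (x : V → E) (A : AffineSubspace ℝ E) (V' : Finset V)
    (hV' : ∀ v ∈ V', x v ∈ A) (ω : Sym2 V → Bool) (k1 k2 m1 D S z M : ℕ) (hD : 0 < D)
    (hnd : ∀ F : AffineSubspace ℝ E, F < A → ∀ B ⊆ V', (∀ v ∈ B, x v ∈ F) → B.card ≤ k2)
    (hbig : k1 + k2 + (finrank ℝ E + 1) * m1 < V'.card)
    (hm1 : (finrank ℝ E + 1) * m1 ≤ S) (hz : 2 * z ≤ S) (hk1 : 2 * M ≤ (k1 + 1) * (m1 + 1))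
    -- few bad pairs for each consistent placement
    (hEN : ∀ y : V → E, Cons x ω y → ∀ B ⊆ V'.sym2, (∀ e ∈ B, badE x y e) → B.card < M)
    -- small sets are sparse
    (hSp : ∀ W : Finset V, W.Nonempty → W.card ≤ S → eW ω W < D * W.card)
    -- few deficient vertices
    (hDeg : ∀ Z ⊆ V', Z.card = z → ∃ v ∈ Z, ∀ F : AffineSubspace ℝ E, F < A →
      ∃ B ⊆ V' \ Z, (∀ u ∈ B, ω s(v, u) = true ∧ x u ∉ F) ∧ 4 * D ≤ B.card) :
    ∃ K ⊆ V', V'.card ≤ K.card + 2 * z ∧ ∀ y : V → E, Cons x ω y →
      ∀ u ∈ K, ∀ w ∈ K, dist (y u) (y w) = dist (x u) (x w) := by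
  classical
  -- deficient vertices
  set Z0 : Finset V := V'.filter (fun v => ¬ ∀ F : AffineSubspace ℝ E, F < A →
      ∃ B ⊆ V', (∀ u ∈ B, Adj ω v u ∧ x u ∉ F) ∧ 4 * D ≤ B.card) with hZ0
  have hZ0card : Z0.card < z ∨ z = 0 ∧ Z0.card = 0 := by
    by_contra hcon
    push Not at hcon
    obtain ⟨h1, h2⟩ := hcon
    obtain ⟨Z, hZ, hZc⟩ := Finset.exists_subset_card_eq h1
    obtain ⟨v, hv, hvF⟩ := hDeg Z (hZ.trans (Finset.filter_subset _ _)) hZc
    have hvZ0 := hZ hv
    rw [hZ0, Finset.mem_filter] at hvZ0
    apply hvZ0.2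
    intro F hF
    obtain ⟨B, hB, hB1, hB2⟩ := hvF F hF
    refine ⟨B, hB.trans Finset.sdiff_subset, ?_, hB2⟩
    intro u hu
    refine ⟨⟨?_, (hB1 u hu).1⟩, (hB1 u hu).2⟩
    intro h
    have := hB hu
    rw [Finset.mem_sdiff, ← h] at this
    exact this.2 hv
  have hZ0z : Z0.card ≤ z := by omega
  -- peeling
  let P : Finset V → Prop := fun Z => Z0 ⊆ Z ∧ Z ⊆ V' ∧ Z.card ≤ S ∧
    2 * D * (Z.card - Z0.card) ≤ eW ω Z
  have hP0 : P Z0 := ⟨Finset.Subset.refl _, Finset.filter_subset _ _, by omega, by simp⟩
  obtain ⟨Z, hZP, hZmax⟩ : ∃ Z, P Z ∧ ∀ Z', P Z' → Z'.card ≤ Z.card := by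
    obtain ⟨Z, hZ, hmax⟩ := Finset.exists_max_image (Finset.univ.filter P) Finset.card
      ⟨Z0, by simp [hP0]⟩
    exact ⟨Z, by simpa using hZ, fun Z' hZ' => hmax Z' (by simp [hZ'])⟩
  obtain ⟨hZ1, hZ2, hZ3, hZ4⟩ := hZP
  have hZle : Z0.card ≤ Z.card := Finset.card_le_card hZ1
  have hZcard : Z.card ≤ 2 * Z0.card ∧ (Z.Nonempty → Z.card < 2 * Z0.card) := by
    rcases Finset.eq_empty_or_nonempty Z with h | h
    · subst h
      simp
    · have h1 := hSp Z h hZ3
      have h2 : 2 * D * (Z.card - Z0.card) < D * Z.card := lt_of_le_of_lt hZ4 h1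
      have h3 : 2 * (Z.card - Z0.card) < Z.card := by
        have : D * (2 * (Z.card - Z0.card)) < D * Z.card := by
          calc D * (2 * (Z.card - Z0.card)) = 2 * D * (Z.card - Z0.card) := by ring
            _ < D * Z.card := h2
        exact lt_of_mul_lt_mul_left this (Nat.zero_le _)
      constructor
      · omega
      · intro _; omega
  -- few neighbours in `Z`
  have hfewZ : ∀ v ∈ V' \ Z, ∀ B ⊆ Z, (∀ u ∈ B, Adj ω v u) → B.card < 2 * D := by
    intro v hv B hB hadj
    by_contra hcon
    push Not at hcon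
    rw [Finset.mem_sdiff] at hv
    have hBne : B.Nonempty := by
      rw [← Finset.card_pos]; omega
    have hZne : Z.Nonempty := hBne.mono hB
    have hlt := hZcard.2 hZne
    have hP' : P (insert v Z) := by
      refine ⟨hZ1.trans (Finset.subset_insert _ _), Finset.insert_subset hv.1 hZ2, ?_, ?_⟩
      · rw [Finset.card_insert_of_notMem hv.2]; omega
      · rw [Finset.card_insert_of_notMem hv.2]
        have h1 : eW ω Z + B.card ≤ eW ω (insert v Z) := by
          unfold eW
          have himg : (B.image (fun u => s(v, u))).card = B.card := by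
            apply Finset.card_image_of_injOn
            intro u _ u' _ h
            simp only [Sym2.eq_iff] at h
            rcases h with h | h
            · exact h.2
            · rw [h.2, ← h.1]
          rw [← himg, ← Finset.card_union_of_disjoint]
          · apply Finset.card_le_card
            intro e he
            rw [Finset.mem_union] at he
            rcases he with he | he
            · rw [Finset.mem_filter] at he ⊢
              exact ⟨Finset.sym2_mono (Finset.subset_insert _ _) he.1, he.2⟩
            · rw [Finset.mem_image] at he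
              obtain ⟨u, hu, rfl⟩ := he
              rw [Finset.mem_filter, Finset.mk_mem_sym2_iff]
              refine ⟨⟨Finset.mem_insert_self _ _, Finset.mem_insert_of_mem (hB hu)⟩,
                (hadj u hu).2⟩
          · rw [Finset.disjoint_left]
            intro e he he'
            rw [Finset.mem_image] at he'
            obtain ⟨u, hu, rfl⟩ := he'
            rw [Finset.mem_filter, Finset.mk_mem_sym2_iff] at he
            exact hv.2 he.1.1
        have h2 : Z.card + 1 - Z0.card = (Z.card - Z0.card) + 1 := by omega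
        rw [h2]
        calc 2 * D * (Z.card - Z0.card + 1) = 2 * D * (Z.card - Z0.card) + 2 * D := by ring
          _ ≤ eW ω Z + B.card := by omega
          _ ≤ _ := h1
    have := hZmax _ hP'
    rw [Finset.card_insert_of_notMem hv.2] at this
    omega
  refine ⟨V' \ Z, Finset.sdiff_subset, ?_, ?_⟩
  · rw [Finset.card_sdiff_of_subset hZ2]
    omega
  · intro y hy
    set typ : V → Prop := fun v => ∀ B ⊆ V', (∀ u ∈ B, dist (y v) (y u) ≠ dist (x v) (x u)) →
      B.card ≤ m1 with htypdef
    apply core_rigid x y A V' (V' \ Z) hV' Finset.sdiff_subset (Adj ω) typ k1 k2 m1 (2 * D)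
    · -- few atypical points
      intro B hB hBt
      by_contra hcon
      push Not at hcon
      have hR : ∀ v ∈ B, ∃ R ⊆ V', (∀ u ∈ R, dist (y v) (y u) ≠ dist (x v) (x u)) ∧
          m1 + 1 ≤ R.card := by
        intro v hv
        have h1 := hBt v hv
        simp only [htypdef] at h1
        push Not at h1
        obtain ⟨R, hR1, hR2, hR3⟩ := h1
        exact ⟨R, hR1, hR2, hR3⟩
      choose! R hR1 hR2 hR3 using hR
      have h2 := pairs_le V' (fun v => if v ∈ B then R v else ∅) (badE x y)
        (by
          intro v _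
          split_ifs with h
          · exact hR1 v h
          · simp)
        (by
          intro v _ u hu
          split_ifs at hu with h
          · exact hR2 v h u hu
          · simp at hu)
      have h3 : (k1 + 1) * (m1 + 1) ≤ ∑ v ∈ V', (if v ∈ B then R v else ∅).card := by
        calc (k1 + 1) * (m1 + 1) ≤ B.card * (m1 + 1) := Nat.mul_le_mul_right _ hcon
          _ = ∑ _v ∈ B, (m1 + 1) := by simp
          _ ≤ ∑ v ∈ B, (if v ∈ B then R v else ∅).card := by
              apply Finset.sum_le_sum
              intro v hv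
              rw [if_pos hv]
              exact hR3 v hv
          _ ≤ ∑ v ∈ V', (if v ∈ B then R v else ∅).card :=
              Finset.sum_le_sum_of_subset hB
      have h4 := hEN y hy (V'.sym2.filter (badE x y)) (Finset.filter_subset _ _)
        (fun e he => (Finset.mem_filter.mp he).2)
      omega
    · exact hnd
    · intro v _ hvt
      exact hvt
    · exact hbig
    · exact hy
    · -- the core property
      intro v hv F hF
      have hv' := hv
      rw [Finset.mem_sdiff] at hv'
      have hvZ0 : v ∉ Z0 := fun h => hv'.2 (hZ1 h)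
      rw [hZ0, Finset.mem_filter] at hvZ0
      have hgood : ∀ F : AffineSubspace ℝ E, F < A →
          ∃ B ⊆ V', (∀ u ∈ B, Adj ω v u ∧ x u ∉ F) ∧ 4 * D ≤ B.card := by
        by_contra hcon
        exact hvZ0 ⟨hv'.1, hcon⟩
      obtain ⟨B, hB, hB1, hB2⟩ := hgood F hF
      refine ⟨B \ Z, Finset.sdiff_subset_sdiff hB (Finset.Subset.refl _), ?_, ?_⟩
      · intro u hu
        exact hB1 u (Finset.mem_sdiff.mp hu).1
      · have h1 := hfewZ v hv (B ∩ Z) Finset.inter_subset_right
          (fun u hu => (hB1 u (Finset.mem_inter.mp hu).1).1)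
        have h2 := Finset.card_sdiff_add_card_inter B Z
        omega
    · -- sparsity
      intro W hW hWne hWc
      by_contra hcon
      push Not at hcon
      choose! R hR1 hR2 hR3 using hcon
      have h1 := hSp W hWne (le_trans hWc hm1)
      have h2 := pairs_le W R (fun e => ω e = true) hR1 (fun v hv u hu => (hR2 v hv u hu).2)
      have h3 : W.card * (2 * D) ≤ ∑ v ∈ W, (R v).card := by
        calc W.card * (2 * D) = ∑ _v ∈ W, (2 * D) := by simp
          _ ≤ _ := Finset.sum_le_sum hR3
      have h4 : (W.sym2.filter (fun e => ω e = true)).card = eW ω W := rfl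
      rw [h4] at h2
      have h5 : W.card * (2 * D) = 2 * (D * W.card) := by ring
      omega

end Pool.Agent.Recon
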