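import Pool.Agent.Recon.Prod

open Finset

set_option linter.unusedSectionVars false

namespace Pool.Agent.Recon

variable {α : Type*} [Fintype α] [DecidableEq α]

/-- Bernoulli weight -/
def bw (q : ℝ) : Bool → ℝ := fun b => if b then q else 1 - q

/-- three-state weight -/
def tw (q : ℝ) : Fin 3 → ℝ := ![1 - 2 * q, q, q]

lemma bw_sum (q : ℝ) : ∑ b, bw q b = 1 := by simp [bw]

lemma bw_nonneg {q : ℝ} (h0 : 0 ≤ q) (h1 : q ≤ 1) (b : Bool) : 0 ≤ bw q b := by
  unfold bw; split_ifs <;> linarith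

lemma tw_nonneg {q : ℝ} (h0 : 0 ≤ q) (h1 : q ≤ 1 / 2) (b : Fin 3) : 0 ≤ tw q b := by
  unfold tw; fin_cases b <;> simp <;> linarith

/-- the last state -/
def isTwo (b : Fin 3) : Bool := decide (b = 2)

lemma push_two (q : ℝ) :
    (fun c => ∑ b, if isTwo b = c then tw q b else 0) = bw q := by
  funext c
  rw [Fin.sum_univ_three]
  cases c <;> simp [isTwo, tw, bw] <;> ring

lemma half_pow_le {x : ℕ} {t : ℕ} (h : x < t) : (1 : ℝ) ≤ 2 ^ t * (1 / 2) ^ x := by
  have h1 : (2 : ℝ) ^ t = 2 ^ x * 2 ^ (t - x) := by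
    rw [← pow_add]; congr 1; omega
  rw [h1]
  have h2 : (2 : ℝ) ^ x * (1 / 2) ^ x = 1 := by rw [← mul_pow]; norm_num
  calc (1 : ℝ) ≤ 2 ^ (t - x) := one_le_pow₀ (by norm_num)
    _ = (2 ^ x * (1 / 2) ^ x) * 2 ^ (t - x) := by rw [h2]; ring
    _ = 2 ^ x * 2 ^ (t - x) * (1 / 2) ^ x := by ring

lemma prod_ite_one (p : α → Prop) [DecidablePred p] (x : ℝ) :
    ∏ a, (if p a then x else 1) = x ^ (univ.filter p).card := by
  rw [Finset.prod_ite]
  simp

lemma eps_net_first {q : ℝ} (hq0 : 0 ≤ q) (hq1 : q ≤ 1 / 2)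
    (𝓑 : Finset (Finset α)) (M t : ℕ) (hM : ∀ B ∈ 𝓑, M ≤ B.card)
    (Bf : (α → Bool) → Finset α)
    (hBf : ∀ ν : α → Bool, (∃ B ∈ 𝓑, ∀ a ∈ B, ν a = false) →
      (Bf ν ∈ 𝓑 ∧ ∀ a ∈ Bf ν, ν a = false)) :
    Pr (tw q) (fun ω : α → Fin 3 => (∃ B ∈ 𝓑, ∀ a ∈ B, ω a ≠ 2) ∧
          ((Bf (isTwo ∘ ω)).filter (fun a => ω a = 1)).card < t) ≤ 2 ^ t * (1 - q / 2) ^ M := by
  classical
  have htw := tw_nonneg hq0 hq1
  have hb : ∀ ω : α → Fin 3, ((∃ B ∈ 𝓑, ∀ a ∈ B, ω a ≠ 2) ∧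
        ((Bf (isTwo ∘ ω)).filter (fun a => ω a = 1)).card < t) →
      (1 : ℝ) ≤ ∑ ν : α → Bool, if isTwo ∘ ω = ν then
        (if (∃ B ∈ 𝓑, ∀ a ∈ B, ν a = false) then
          2 ^ t * ∏ a, (if a ∈ Bf ν ∧ ω a = 1 then (1 / 2 : ℝ) else 1) else 0) else 0 := by
    rintro ω ⟨hω, hlt⟩
    have hν : ∃ B ∈ 𝓑, ∀ a ∈ B, (isTwo ∘ ω) a = false := by
      obtain ⟨B, hB, hB2⟩ := hω
      exact ⟨B, hB, fun a ha => by simp [isTwo, hB2 a ha]⟩
    rw [Finset.sum_ite_eq]
    simp only [Finset.mem_univ, if_true]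
    rw [if_pos hν]
    have hp : ∏ a, (if a ∈ Bf (isTwo ∘ ω) ∧ ω a = 1 then (1 / 2 : ℝ) else 1)
        = (1 / 2) ^ ((Bf (isTwo ∘ ω)).filter (fun a => ω a = 1)).card := by
      rw [prod_ite_one]
      congr 2
      apply Finset.ext
      intro a
      simp
    rw [hp]
    exact half_pow_le hlt
  refine le_trans (Pr_le_Ex htw (g := fun ω => ∑ ν : α → Bool, if isTwo ∘ ω = ν then
        (if (∃ B ∈ 𝓑, ∀ a ∈ B, ν a = false) then
          2 ^ t * ∏ a, (if a ∈ Bf ν ∧ ω a = 1 then (1 / 2 : ℝ) else 1) else 0) else 0)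
      ?_ hb) ?_
  · intro ω
    apply Finset.sum_nonneg
    intro ν _
    split_ifs
    · apply mul_nonneg (by positivity)
      apply Finset.prod_nonneg
      intro a _
      split_ifs <;> norm_num
    · exact le_refl _
    · exact le_refl _
  · rw [Ex_sum]
    have hterm : ∀ ν : α → Bool, Ex (tw q) (fun ω : α → Fin 3 => if isTwo ∘ ω = ν then
        (if (∃ B ∈ 𝓑, ∀ a ∈ B, ν a = false) then
          2 ^ t * ∏ a, (if a ∈ Bf ν ∧ ω a = 1 then (1 / 2 : ℝ) else 1) else 0) else 0)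
        ≤ wt (bw q) ν * (2 ^ t * (1 - q / 2) ^ M) := by
      intro ν
      by_cases hν : ∃ B ∈ 𝓑, ∀ a ∈ B, ν a = false
      · obtain ⟨hb1, hb2⟩ := hBf ν hν
        have e1 : Ex (tw q) (fun ω : α → Fin 3 => if isTwo ∘ ω = ν then
            (if (∃ B ∈ 𝓑, ∀ a ∈ B, ν a = false) then
            2 ^ t * ∏ a, (if a ∈ Bf ν ∧ ω a = 1 then (1 / 2 : ℝ) else 1) else 0) else 0)
            = 2 ^ t * ∏ a, ∑ b, if isTwo b = ν a then
              tw q b * (if a ∈ Bf ν ∧ b = 1 then (1 / 2 : ℝ) else 1) else 0 := by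
          rw [← sum_fiber (tw q) isTwo
            (fun a b => if a ∈ Bf ν ∧ b = 1 then (1 / 2 : ℝ) else 1) ν]
          unfold Ex wt
          rw [Finset.mul_sum]
          apply Finset.sum_congr rfl
          intro ω _
          dsimp only
          rw [if_pos hν]
          split_ifs with h
          · rw [Finset.prod_mul_distrib]; ring
          · simp
        rw [e1]
        have e2 : ∏ a, (∑ b, if isTwo b = ν a then
              tw q b * (if a ∈ Bf ν ∧ b = 1 then (1 / 2 : ℝ) else 1) else 0)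
            ≤ ∏ a, (bw q (ν a) * (if a ∈ Bf ν then (1 - q / 2) else 1)) := by
          apply Finset.prod_le_prod
          · intro a _
            apply Finset.sum_nonneg
            intro b _
            split_ifs
            · apply mul_nonneg (htw b); norm_num
            · apply mul_nonneg (htw b); norm_num
            · exact le_refl _
          · intro a _
            rw [Fin.sum_univ_three]
            by_cases haB : a ∈ Bf ν
            · have := hb2 a haB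
              simp [isTwo, this, haB, tw, bw]
              nlinarith
            · cases hνa : ν a <;> simp [isTwo, haB, tw, bw]
              linarith
        have e3 : ∏ a, (bw q (ν a) * (if a ∈ Bf ν then (1 - q / 2) else 1))
            = wt (bw q) ν * (1 - q / 2) ^ (Bf ν).card := by
          rw [Finset.prod_mul_distrib]
          congr 1
          rw [Finset.prod_ite]
          simp
        have e4 : (1 - q / 2) ^ (Bf ν).card ≤ (1 - q / 2) ^ M := by
          apply pow_le_pow_of_le_one (by linarith) (by linarith)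
          exact hM _ hb1
        have hwtn : 0 ≤ wt (bw q) ν := wt_nonneg (bw_nonneg hq0 (by linarith)) ν
        calc (2 : ℝ) ^ t * ∏ a, (∑ b, if isTwo b = ν a then
              tw q b * (if a ∈ Bf ν ∧ b = 1 then (1 / 2 : ℝ) else 1) else 0)
            ≤ 2 ^ t * (wt (bw q) ν * (1 - q / 2) ^ (Bf ν).card) := by
              rw [← e3]
              exact mul_le_mul_of_nonneg_left e2 (by positivity)
          _ ≤ 2 ^ t * (wt (bw q) ν * (1 - q / 2) ^ M) := by
              apply mul_le_mul_of_nonneg_left _ (by positivity)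
              exact mul_le_mul_of_nonneg_left e4 hwtn
          _ = _ := by ring
      · have e1 : Ex (tw q) (fun ω : α → Fin 3 => if isTwo ∘ ω = ν then
            (if (∃ B ∈ 𝓑, ∀ a ∈ B, ν a = false) then
            2 ^ t * ∏ a, (if a ∈ Bf ν ∧ ω a = 1 then (1 / 2 : ℝ) else 1) else 0) else 0)
            = 0 := by
          unfold Ex
          apply Finset.sum_eq_zero
          intro ω _
          dsimp only
          rw [if_neg hν]
          simp
        rw [e1]
        have hwtn : 0 ≤ wt (bw q) ν := wt_nonneg (bw_nonneg hq0 (by linarith)) ν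
        have : 0 ≤ 1 - q / 2 := by linarith
        positivity
    refine le_trans (Finset.sum_le_sum (fun ν _ => hterm ν)) ?_
    rw [← Finset.sum_mul]
    have : ∑ ν : α → Bool, wt (bw q) ν = 1 := by
      have := Ex_one (α := α) (bw_sum q)
      unfold Ex at this
      simpa using this
    rw [this, one_mul]

lemma eps_net_second {q : ℝ} (hq0 : 0 ≤ q) (hq1 : q ≤ 1 / 2)
    (𝓑 : Finset (Finset α)) (t : ℕ) (c r : ℝ)
    (htr : ∀ A : Finset α, ((𝓑.image (fun B => A ∩ B)).card : ℝ) ≤ c * r ^ A.card) :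
    Pr (tw q) (fun ω : α → Fin 3 => ∃ B ∈ 𝓑, (∀ a ∈ B, ω a ≠ 2) ∧
          t ≤ (B.filter (fun a => ω a = 1)).card)
      ≤ (1 / 2) ^ t * c * (1 + 2 * q * (r - 1)) ^ (Fintype.card α) := by
  classical
  have htw := tw_nonneg hq0 hq1
  -- bound the indicator by a sum over supports and traces
  have hb : ∀ ω : α → Fin 3, (∃ B ∈ 𝓑, (∀ a ∈ B, ω a ≠ 2) ∧
        t ≤ (B.filter (fun a => ω a = 1)).card) →
      (1 : ℝ) ≤ ∑ A : Finset α, ∑ τ ∈ (𝓑.image (fun B => A ∩ B)).filter (fun τ => t ≤ τ.card),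
        ∏ a, (if (a ∈ A ↔ ω a ≠ 0) ∧ (a ∈ τ → ω a = 1) then (1 : ℝ) else 0) := by
    rintro ω ⟨B, hB, hB2, hB3⟩
    set A : Finset α := Finset.univ.filter (fun a => ω a ≠ 0) with hA
    have hAB : (A ∩ B) ∈ (𝓑.image (fun B => A ∩ B)).filter (fun τ => t ≤ τ.card) := by
      rw [Finset.mem_filter]
      refine ⟨Finset.mem_image_of_mem _ hB, ?_⟩
      refine le_trans hB3 (Finset.card_le_card ?_)
      intro a ha
      rw [Finset.mem_filter] at ha
      rw [Finset.mem_inter, hA, Finset.mem_filter]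
      refine ⟨⟨Finset.mem_univ _, ?_⟩, ha.1⟩
      rw [ha.2]; decide
    have hval : ∏ a, (if (a ∈ A ↔ ω a ≠ 0) ∧ (a ∈ A ∩ B → ω a = 1) then (1 : ℝ) else 0) = 1 := by
      apply Finset.prod_eq_one
      intro a _
      rw [if_pos]
      refine ⟨by simp [hA], ?_⟩
      intro ha
      rw [Finset.mem_inter, hA, Finset.mem_filter] at ha
      have h0 := ha.1.2
      have h2 := hB2 a ha.2
      have : ∀ b : Fin 3, b ≠ 0 → b ≠ 2 → b = 1 := by decide
      exact this _ h0 h2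
    have hnn : ∀ (A τ : Finset α), (0 : ℝ) ≤
        ∏ a, (if (a ∈ A ↔ ω a ≠ 0) ∧ (a ∈ τ → ω a = 1) then (1 : ℝ) else 0) := by
      intro A τ
      apply Finset.prod_nonneg
      intro a _
      split_ifs <;> norm_num
    calc (1 : ℝ) = ∏ a, (if (a ∈ A ↔ ω a ≠ 0) ∧ (a ∈ A ∩ B → ω a = 1) then (1 : ℝ) else 0) :=
          hval.symm
      _ ≤ ∑ τ ∈ (𝓑.image (fun B => A ∩ B)).filter (fun τ => t ≤ τ.card),
        ∏ a, (if (a ∈ A ↔ ω a ≠ 0) ∧ (a ∈ τ → ω a = 1) then (1 : ℝ) else 0) :=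
          Finset.single_le_sum (f := fun τ =>
            ∏ a, (if (a ∈ A ↔ ω a ≠ 0) ∧ (a ∈ τ → ω a = 1) then (1 : ℝ) else 0))
            (fun τ _ => hnn A τ) hAB
      _ ≤ _ := Finset.single_le_sum (f := fun A =>
          ∑ τ ∈ (𝓑.image (fun B => A ∩ B)).filter (fun τ => t ≤ τ.card),
          ∏ a, (if (a ∈ A ↔ ω a ≠ 0) ∧ (a ∈ τ → ω a = 1) then (1 : ℝ) else 0))
          (fun A _ => Finset.sum_nonneg (fun τ _ => hnn A τ)) (Finset.mem_univ A)
  refine le_trans (Pr_le_Ex htw (g := fun ω => ∑ A : Finset α,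
      ∑ τ ∈ (𝓑.image (fun B => A ∩ B)).filter (fun τ => t ≤ τ.card),
        ∏ a, (if (a ∈ A ↔ ω a ≠ 0) ∧ (a ∈ τ → ω a = 1) then (1 : ℝ) else 0)) ?_ hb) ?_
  · intro ω
    apply Finset.sum_nonneg
    intro A _
    apply Finset.sum_nonneg
    intro τ _
    apply Finset.prod_nonneg
    intro a _
    split_ifs <;> norm_num
  · rw [Ex_sum]
    have hterm : ∀ A : Finset α, Ex (tw q) (fun ω : α → Fin 3 =>
        ∑ τ ∈ (𝓑.image (fun B => A ∩ B)).filter (fun τ => t ≤ τ.card),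
        ∏ a, (if (a ∈ A ↔ ω a ≠ 0) ∧ (a ∈ τ → ω a = 1) then (1 : ℝ) else 0))
        ≤ (1 / 2) ^ t * c * (∏ a ∈ A, (2 * q * r)) * (∏ a ∈ univ \ A, (1 - 2 * q)) := by
      intro A
      rw [Ex_sum]
      have hτ : ∀ τ ∈ (𝓑.image (fun B => A ∩ B)).filter (fun τ => t ≤ τ.card),
          Ex (tw q) (fun ω : α → Fin 3 =>
          ∏ a, (if (a ∈ A ↔ ω a ≠ 0) ∧ (a ∈ τ → ω a = 1) then (1 : ℝ) else 0))
          ≤ (1 / 2) ^ t * ((∏ a ∈ A, (2 * q)) * (∏ a ∈ univ \ A, (1 - 2 * q))) := by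
        intro τ hτ
        rw [Finset.mem_filter, Finset.mem_image] at hτ
        obtain ⟨⟨B, hB, hBτ⟩, ht⟩ := hτ
        have hτA : τ ⊆ A := by rw [← hBτ]; exact Finset.inter_subset_left
        rw [Ex_prod (tw q) (fun a b => if (a ∈ A ↔ b ≠ 0) ∧ (a ∈ τ → b = 1) then (1 : ℝ) else 0)]
        have hcoord : ∀ a : α, (∑ b : Fin 3, tw q b *
            (if (a ∈ A ↔ b ≠ 0) ∧ (a ∈ τ → b = 1) then (1 : ℝ) else 0))
            = (if a ∈ τ then (1 / 2 : ℝ) else 1) * (if a ∈ A then 2 * q else 1 - 2 * q) := by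
          intro a
          rw [Fin.sum_univ_three]
          by_cases h1 : a ∈ τ
          · have h2 : a ∈ A := hτA h1
            simp [h1, h2, tw]
          · by_cases h2 : a ∈ A
            · simp [h1, h2, tw]; ring
            · simp [h1, h2, tw]
        simp_rw [hcoord]
        rw [Finset.prod_mul_distrib]
        have hA1 : ∏ a, (if a ∈ A then 2 * q else 1 - 2 * q)
            = (∏ a ∈ A, (2 * q)) * (∏ a ∈ univ \ A, (1 - 2 * q)) := by
          rw [Finset.prod_ite]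
          congr 1
          · congr 1; ext a; simp
          · congr 1; ext a; simp
        have hτ1 : ∏ a, (if a ∈ τ then (1 / 2 : ℝ) else 1) = (1 / 2) ^ τ.card := by
          rw [Finset.prod_ite]
          simp
        rw [hA1, hτ1]
        apply mul_le_mul_of_nonneg_right
        · exact pow_le_pow_of_le_one (by norm_num) (by norm_num) ht
        · apply mul_nonneg
          · exact Finset.prod_nonneg (fun _ _ => by linarith)
          · exact Finset.prod_nonneg (fun _ _ => by linarith)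
      refine le_trans (Finset.sum_le_card_nsmul _ _ _ hτ) ?_
      rw [nsmul_eq_mul]
      have hcard : (((𝓑.image (fun B => A ∩ B)).filter (fun τ => t ≤ τ.card)).card : ℝ)
          ≤ c * r ^ A.card := by
        refine le_trans ?_ (htr A)
        exact_mod_cast Finset.card_filter_le _ _
      have hnn : 0 ≤ (1 / 2 : ℝ) ^ t * ((∏ a ∈ A, (2 * q)) * (∏ a ∈ univ \ A, (1 - 2 * q))) := by
        apply mul_nonneg (by positivity)
        apply mul_nonneg
        · exact Finset.prod_nonneg (fun _ _ => by linarith)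
        · exact Finset.prod_nonneg (fun _ _ => by linarith)
      refine le_trans (mul_le_mul_of_nonneg_right hcard hnn) (le_of_eq ?_)
      have : ∏ a ∈ A, (2 * q * r) = (∏ a ∈ A, (2 * q)) * r ^ A.card := by
        rw [Finset.prod_mul_distrib]; simp
      rw [this]
      ring
    refine le_trans (Finset.sum_le_sum (fun A _ => hterm A)) (le_of_eq ?_)
    have hprod := Finset.prod_add (fun _ : α => 2 * q * r) (fun _ : α => 1 - 2 * q) Finset.univ
    rw [Finset.powerset_univ] at hprod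
    have : ∑ A : Finset α, (1 / 2) ^ t * c * (∏ a ∈ A, (2 * q * r)) *
        (∏ a ∈ univ \ A, (1 - 2 * q))
        = (1 / 2) ^ t * c * ∑ A : Finset α, (∏ a ∈ A, (2 * q * r)) *
          (∏ a ∈ univ \ A, (1 - 2 * q)) := by
      rw [Finset.mul_sum]
      exact Finset.sum_congr rfl (fun A _ => by ring)
    rw [this, ← hprod]
    rw [Finset.prod_const, Finset.card_univ]
    congr 1
    congr 1
    ring

/-- The double sampling (`ε`-net) lemma. -/
theorem eps_net {q : ℝ} (hq0 : 0 ≤ q) (hq1 : q ≤ 1 / 2)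
    (𝓑 : Finset (Finset α)) (M t : ℕ) (hM : ∀ B ∈ 𝓑, M ≤ B.card) (c r : ℝ)
    (htr : ∀ A : Finset α, ((𝓑.image (fun B => A ∩ B)).card : ℝ) ≤ c * r ^ A.card) :
    Pr (bw q) (fun ω : α → Bool => ∃ B ∈ 𝓑, ∀ a ∈ B, ω a = false)
      ≤ 2 ^ t * (1 - q / 2) ^ M + (1 / 2) ^ t * c * (1 + 2 * q * (r - 1)) ^ (Fintype.card α) := by
  classical
  have htw := tw_nonneg hq0 hq1
  -- pass to the three-state space
  have h1 : Pr (bw q) (fun ω : α → Bool => ∃ B ∈ 𝓑, ∀ a ∈ B, ω a = false)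
      = Pr (tw q) (fun ω : α → Fin 3 => ∃ B ∈ 𝓑, ∀ a ∈ B, ω a ≠ 2) := by
    rw [← push_two q]
    rw [← Pr_push (tw q) isTwo (fun ω : α → Bool => ∃ B ∈ 𝓑, ∀ a ∈ B, ω a = false)]
    congr 1
    funext ω
    simp [isTwo]
  rw [h1]
  -- choice of a bad set for each Boolean configuration
  have hch : ∀ ν : α → Bool, ∃ B : Finset α, (∃ B ∈ 𝓑, ∀ a ∈ B, ν a = false) →
      (B ∈ 𝓑 ∧ ∀ a ∈ B, ν a = false) := by
    intro ν
    by_cases h : ∃ B ∈ 𝓑, ∀ a ∈ B, ν a = false
    · obtain ⟨B, hB⟩ := h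
      exact ⟨B, fun _ => hB⟩
    · exact ⟨∅, fun h' => absurd h' h⟩
  choose Bf hBf using hch
  -- splitting
  have h2 : Pr (tw q) (fun ω : α → Fin 3 => ∃ B ∈ 𝓑, ∀ a ∈ B, ω a ≠ 2)
      ≤ Pr (tw q) (fun ω : α → Fin 3 => (∃ B ∈ 𝓑, ∀ a ∈ B, ω a ≠ 2) ∧
          ((Bf (isTwo ∘ ω)).filter (fun a => ω a = 1)).card < t)
        + Pr (tw q) (fun ω : α → Fin 3 => ∃ B ∈ 𝓑, (∀ a ∈ B, ω a ≠ 2) ∧
          t ≤ (B.filter (fun a => ω a = 1)).card) := by
    refine le_trans (Pr_mono htw ?_) (Pr_or_le htw _ _)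
    intro ω hω
    by_cases hlt : ((Bf (isTwo ∘ ω)).filter (fun a => ω a = 1)).card < t
    · exact Or.inl ⟨hω, hlt⟩
    · right
      have hν : ∃ B ∈ 𝓑, ∀ a ∈ B, (isTwo ∘ ω) a = false := by
        obtain ⟨B, hB, hB2⟩ := hω
        exact ⟨B, hB, fun a ha => by simp [isTwo, hB2 a ha]⟩
      obtain ⟨hb1, hb2⟩ := hBf _ hν
      refine ⟨_, hb1, ?_, not_lt.mp hlt⟩
      intro a ha h2
      have := hb2 a ha
      simp [isTwo, h2] at this
  have h3 := eps_net_first hq0 hq1 𝓑 M t hM Bf hBf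
  have h4 := eps_net_second hq0 hq1 𝓑 t c r htr
  linarith

end Pool.Agent.Recon
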