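import Mathlib

open Finset MvPolynomial

namespace Pool.Agent.Recon

lemma geom_le {x : ℝ} (hx0 : 0 < x) (hx1 : x < 1) (D : ℕ) :
    ∑ j ∈ Finset.range D, x ^ j ≤ 1 / (1 - x) := by
  have h : (∑ j ∈ Finset.range D, x ^ j) * (1 - x) = 1 - x ^ D := by
    have := geom_sum_mul_neg x D
    linarith
  rw [le_div_iff₀ (by linarith), h]
  have : 0 < x ^ D := by positivity
  linarith

/-- Number of exponent vectors of total degree at most `D`, generating function form. -/
lemma card_exponents {σ : Type*} [Fintype σ] [DecidableEq σ] (D : ℕ) (x : ℝ) (hx0 : 0 < x)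
    (hx1 : x < 1) :
    (Nat.card ({n : σ →₀ ℕ | (n.sum fun _ e => e) ≤ D} : Set (σ →₀ ℕ)) : ℝ) * x ^ D
      ≤ (1 / (1 - x)) ^ (Fintype.card σ) := by
  classical
  set T : Finset (σ → ℕ) := (Fintype.piFinset (fun _ : σ => Finset.range (D + 1))).filter
    (fun m => ∑ i, m i ≤ D) with hT
  have hcard : Nat.card ({n : σ →₀ ℕ | (n.sum fun _ e => e) ≤ D} : Set (σ →₀ ℕ)) ≤ T.card := by
    have hmem : ∀ n : ({n : σ →₀ ℕ | (n.sum fun _ e => e) ≤ D} : Set (σ →₀ ℕ)),
        (fun i => (n : σ →₀ ℕ) i) ∈ T := by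
      rintro ⟨n, hn⟩
      have hn' : ∑ i, n i ≤ D := by
        rw [← Finsupp.sum_fintype n (fun _ e => e) (fun _ => rfl)]
        exact hn
      rw [hT, Finset.mem_filter, Fintype.mem_piFinset]
      refine ⟨fun i => ?_, hn'⟩
      rw [Finset.mem_range]
      have := Finset.single_le_sum (f := fun i => n i) (fun _ _ => Nat.zero_le _)
        (Finset.mem_univ i)
      simp only at this ⊢
      omega
    have := Nat.card_le_card_of_injective (β := T)
      (fun n : ({n : σ →₀ ℕ | (n.sum fun _ e => e) ≤ D} : Set (σ →₀ ℕ)) =>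
        (⟨fun i => (n : σ →₀ ℕ) i, hmem n⟩ : T)) (by
        intro a b hab
        simp only [Subtype.mk.injEq] at hab
        apply Subtype.ext
        ext i
        exact congrFun hab i)
    simpa using this
  have h1 : (T.card : ℝ) * x ^ D ≤ ∑ m ∈ T, ∏ i, x ^ (m i) := by
    rw [← nsmul_eq_mul]
    apply Finset.card_nsmul_le_sum
    intro m hm
    rw [hT, Finset.mem_filter] at hm
    rw [Finset.prod_pow_eq_pow_sum]
    exact pow_le_pow_of_le_one hx0.le hx1.le hm.2
  have h2 : ∑ m ∈ T, ∏ i, x ^ (m i) ≤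
      ∑ m ∈ Fintype.piFinset (fun _ : σ => Finset.range (D + 1)), ∏ i, x ^ (m i) := by
    apply Finset.sum_le_sum_of_subset_of_nonneg (Finset.filter_subset _ _)
    intro m _ _
    exact Finset.prod_nonneg (fun i _ => by positivity)
  have h3 : ∑ m ∈ Fintype.piFinset (fun _ : σ => Finset.range (D + 1)), ∏ i, x ^ (m i)
      = ∏ _i : σ, ∑ j ∈ Finset.range (D + 1), x ^ j := by
    rw [Finset.prod_univ_sum]
  have h4 : ∏ _i : σ, ∑ j ∈ Finset.range (D + 1), x ^ j ≤ (1 / (1 - x)) ^ (Fintype.card σ) := by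
    rw [Finset.prod_const, Finset.card_univ]
    apply pow_le_pow_left₀
    · exact Finset.sum_nonneg (fun _ _ => by positivity)
    · exact geom_le hx0 hx1 _
  have h5 : (Nat.card ({n : σ →₀ ℕ | (n.sum fun _ e => e) ≤ D} : Set (σ →₀ ℕ)) : ℝ) * x ^ D
      ≤ (T.card : ℝ) * x ^ D := by
    apply mul_le_mul_of_nonneg_right _ (by positivity)
    exact_mod_cast hcard
  linarith

/-- The Rónyai–Babai–Ganapathy bound on the number of zero patterns of quadratic polynomials,
generating function form. -/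
theorem zero_pattern {σ ι : Type*} [Fintype σ] [DecidableEq σ] [DecidableEq ι]
    (f : ι → MvPolynomial σ ℝ) (hf : ∀ i, (f i).totalDegree ≤ 2) (A : Finset ι)
    (Ps : Finset (Finset ι))
    (h : ∀ τ ∈ Ps, ∃ u : σ → ℝ, ∀ i, i ∈ τ ↔ (i ∈ A ∧ eval u (f i) ≠ 0)) (lam : ℝ)
    (hlam : 0 < lam) :
    (Ps.card : ℝ) ≤ ((1 + lam) / lam) ^ (Fintype.card σ) * ((1 + lam) ^ 2) ^ A.card := by
  classical
  choose! u hu using h
  set D := 2 * A.card with hD
  -- the products
  let g : Ps → MvPolynomial σ ℝ := fun τ => ∏ i ∈ (τ : Finset ι), f i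
  have hsub : ∀ τ ∈ Ps, τ ⊆ A := by
    intro τ hτ i hi
    exact ((hu τ hτ i).mp hi).1
  have hgdeg : ∀ τ : Ps, g τ ∈ restrictTotalDegree σ ℝ D := by
    intro τ
    rw [mem_restrictTotalDegree]
    refine le_trans (totalDegree_finsetProd _ _) ?_
    refine le_trans (Finset.sum_le_card_nsmul _ _ 2 (fun i _ => hf i)) ?_
    rw [hD, smul_eq_mul, mul_comm]
    exact Nat.mul_le_mul_left 2 (Finset.card_le_card (hsub τ τ.2))
  have hgeval : ∀ τ ρ : Ps, eval (u ρ) (g τ) ≠ 0 ↔ (τ : Finset ι) ⊆ ρ := by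
    intro τ ρ
    simp only [g, map_prod, Finset.prod_ne_zero_iff]
    constructor
    · intro hh i hi
      rw [hu ρ ρ.2]
      exact ⟨hsub τ τ.2 hi, hh i hi⟩
    · intro hh i hi
      exact ((hu ρ ρ.2 i).mp (hh hi)).2
  -- linear independence
  have hli : LinearIndependent ℝ g := by
    rw [Fintype.linearIndependent_iff]
    intro c hc
    by_contra hcon
    push Not at hcon
    obtain ⟨ρ, hρ1, hρ2⟩ := Finset.exists_min_image (Finset.univ.filter (fun τ => c τ ≠ 0))
      (fun τ : Ps => (τ : Finset ι).card) (by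
        obtain ⟨i, hi⟩ := hcon
        exact ⟨i, by simp [hi]⟩)
    have h0 : eval (u ρ) (∑ τ, c τ • g τ) = 0 := by rw [hc]; simp
    rw [map_sum] at h0
    have h1 : ∑ τ, eval (u ρ) (c τ • g τ) = c ρ * eval (u ρ) (g ρ) := by
      rw [Finset.sum_eq_single ρ]
      · simp [smul_eval]
      · intro τ _ hne
        rw [smul_eval]
        by_cases hcτ : c τ = 0
        · simp [hcτ]
        · by_cases hsubset : (τ : Finset ι) ⊆ ρ
          · exfalso
            have hle := hρ2 τ (by simp [hcτ])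
            have heq : (τ : Finset ι) = ρ := Finset.eq_of_subset_of_card_le hsubset hle
            exact hne (Subtype.ext heq)
          · have : eval (u ρ) (g τ) = 0 := by
              by_contra hne0
              exact hsubset ((hgeval τ ρ).mp hne0)
            rw [this]; simp
      · intro hh; exact absurd (Finset.mem_univ _) hh
    rw [h1] at h0
    have hρ3 : c ρ ≠ 0 := by simpa using hρ1
    have hρ4 : eval (u ρ) (g ρ) ≠ 0 := (hgeval ρ ρ).mpr (Finset.Subset.refl _)
    exact (mul_ne_zero hρ3 hρ4) h0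
  -- pass to the submodule
  let g' : Ps → restrictTotalDegree σ ℝ D := fun τ => ⟨g τ, hgdeg τ⟩
  have hli' : LinearIndependent ℝ g' := by
    apply LinearIndependent.of_comp (restrictTotalDegree σ ℝ D).subtype
    exact hli
  have hcard := hli'.fintype_card_le_finrank
  have hfr : Module.finrank ℝ (restrictTotalDegree σ ℝ D)
      = Nat.card ({n : σ →₀ ℕ | (n.sum fun _ e => e) ≤ D} : Set (σ →₀ ℕ)) := by
    exact Module.finrank_eq_nat_card_basis (basisRestrictSupport ℝ _)
  rw [hfr, Fintype.card_coe] at hcard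
  -- numerical conclusion
  have hx0 : (0 : ℝ) < 1 / (1 + lam) := by positivity
  have hx1 : 1 / (1 + lam) < 1 := by
    rw [div_lt_one (by linarith)]; linarith
  have hexp := card_exponents (σ := σ) D (1 / (1 + lam)) hx0 hx1
  have e1 : 1 / (1 - 1 / (1 + lam)) = (1 + lam) / lam := by
    have h1 : (1 + lam) ≠ 0 := by linarith
    have h2 : 1 - 1 / (1 + lam) = lam / (1 + lam) := by
      rw [eq_div_iff h1, sub_mul, one_div_mul_cancel h1]; ring
    rw [h2, one_div_div]
  rw [e1] at hexp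
  have e2 : ((1 + lam) ^ 2) ^ A.card = (1 + lam) ^ D := by rw [hD, pow_mul]
  rw [e2]
  have e3 : (1 / (1 + lam)) ^ D * (1 + lam) ^ D = 1 := by
    rw [← mul_pow]
    rw [one_div_mul_cancel (by linarith : (1 + lam) ≠ 0), one_pow]
  have hc' : (Ps.card : ℝ) ≤ Nat.card ({n : σ →₀ ℕ | (n.sum fun _ e => e) ≤ D} : Set (σ →₀ ℕ)) := by
    exact_mod_cast hcard
  calc (Ps.card : ℝ) ≤ Nat.card ({n : σ →₀ ℕ | (n.sum fun _ e => e) ≤ D} : Set (σ →₀ ℕ)) := hc'
    _ = Nat.card ({n : σ →₀ ℕ | (n.sum fun _ e => e) ≤ D} : Set (σ →₀ ℕ)) *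
          (1 / (1 + lam)) ^ D * (1 + lam) ^ D := by rw [mul_assoc, e3, mul_one]
    _ ≤ _ := mul_le_mul_of_nonneg_right hexp (by positivity)

end Pool.Agent.Recon
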