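import Pool.Agent.Recon.Det
import Pool.Agent.Recon.ZeroPattern

open Finset Module

set_option linter.unusedSectionVars false

namespace Pool.Agent.Recon

variable {E : Type*} [NormedAddCommGroup E] [InnerProductSpace ℝ E] [FiniteDimensional ℝ E]
variable {V : Type*} [Fintype V] [DecidableEq V]

open Classical in
/-- the indices whose point lies in the affine subspace `A` -/
noncomputable def inF (x : V → E) (A : AffineSubspace ℝ E) : Finset V :=
  Finset.univ.filter (fun v => x v ∈ A)

lemma mem_inF {x : V → E} {A : AffineSubspace ℝ E} {v : V} : v ∈ inF x A ↔ x v ∈ A := by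
  simp [inF]

/-- A rich flat none of whose proper subflats is rich. -/
lemma exists_flat (x : V → E) : ∃ A : AffineSubspace ℝ E,
    Fintype.card V ≤ 8 ^ (finrank ℝ E) * (inF x A).card ∧
    ∀ F : AffineSubspace ℝ E, F < A → 8 * (inF x F).card ≤ (inF x A).card := by
  classical
  let P : ℕ → Prop := fun k => ∃ A : AffineSubspace ℝ E, finrank ℝ A.direction = k ∧
    Fintype.card V ≤ 8 ^ (finrank ℝ E - k) * (inF x A).card
  have hP : ∃ k, P k := by
    refine ⟨finrank ℝ E, ⊤, ?_, ?_⟩
    · rw [AffineSubspace.direction_top, finrank_top]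
    · have : inF x (⊤ : AffineSubspace ℝ E) = Finset.univ := by
        ext v; simp [mem_inF]
      rw [this]; simp
  obtain ⟨A, hA1, hA2⟩ := Nat.find_spec hP
  set k := Nat.find hP with hk
  have hkle : k ≤ finrank ℝ E := by rw [← hA1]; exact Submodule.finrank_le _
  refine ⟨A, ?_, ?_⟩
  · refine le_trans hA2 (Nat.mul_le_mul_right _ ?_)
    exact Nat.pow_le_pow_right (by norm_num) (by omega)
  · intro F hF
    by_cases hFe : (F : Set E).Nonempty
    · have hdir := AffineSubspace.direction_lt_of_nonempty hF hFe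
      have hfr := Submodule.finrank_lt_finrank_of_lt hdir
      rw [hA1] at hfr
      have hnot := Nat.find_min hP hfr
      have hlt : 8 ^ (finrank ℝ E - finrank ℝ F.direction) * (inF x F).card
          < Fintype.card V := by
        by_contra hcon
        push Not at hcon
        exact hnot ⟨F, rfl, hcon⟩
      have h1 : 8 ^ (finrank ℝ E - finrank ℝ F.direction) * (inF x F).card
          < 8 ^ (finrank ℝ E - k) * (inF x A).card := lt_of_lt_of_le hlt hA2
      have h2 : (8 : ℕ) ^ (finrank ℝ E - finrank ℝ F.direction)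
          = 8 ^ (finrank ℝ E - k) * 8 ^ (k - finrank ℝ F.direction) := by
        rw [← pow_add]; congr 1; omega
      rw [h2, mul_assoc] at h1
      have h3 := lt_of_mul_lt_mul_left h1 (Nat.zero_le _)
      have h4 : (8 : ℕ) ≤ 8 ^ (k - finrank ℝ F.direction) := by
        calc (8 : ℕ) = 8 ^ 1 := by norm_num
          _ ≤ _ := Nat.pow_le_pow_right (by norm_num) (by omega)
      calc 8 * (inF x F).card ≤ 8 ^ (k - finrank ℝ F.direction) * (inF x F).card :=
            Nat.mul_le_mul_right _ h4
        _ ≤ (inF x A).card := h3.le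
    · have : inF x F = ∅ := by
        ext v
        rw [mem_inF]
        simp only [Finset.notMem_empty, iff_false]
        intro h
        exact hFe ⟨x v, h⟩
      rw [this]; simp

/-- A small spanning subset. -/
lemma exists_J (x : V → E) (Y : Finset V) : ∃ J ⊆ Y, J.card ≤ finrank ℝ E + 1 ∧
    affineSpan ℝ (x '' (J : Set V)) = affineSpan ℝ (x '' (Y : Set V)) := by
  classical
  rcases isEmpty_or_nonempty V with hVe | hVne
  · refine ⟨Y, Finset.Subset.refl _, ?_, rfl⟩
    rw [Finset.eq_empty_of_isEmpty Y]; simp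
  obtain ⟨t, ht, hspan, hind⟩ := exists_affineIndependent ℝ E (x '' (Y : Set V))
  have htfin : t.Finite := (Set.Finite.image x (Finset.finite_toSet Y)).subset ht
  -- choose preimages
  have hpre : ∀ p ∈ t, ∃ u ∈ Y, x u = p := by
    intro p hp
    obtain ⟨u, hu, hup⟩ := ht hp
    exact ⟨u, hu, hup⟩
  choose! f hf1 hf2 using hpre
  refine ⟨htfin.toFinset.image f, ?_, ?_, ?_⟩
  · intro u hu
    rw [Finset.mem_image] at hu
    obtain ⟨p, hp, rfl⟩ := hu
    exact hf1 p (htfin.mem_toFinset.mp hp)
  · refine le_trans Finset.card_image_le ?_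
    have : Fintype t := htfin.fintype
    have h1 := hind.card_le_finrank_succ
    rw [← Nat.card_eq_fintype_card] at h1
    have h2 := Submodule.finrank_le (vectorSpan ℝ (Set.range ((↑) : t → E)))
    have h3 : htfin.toFinset.card = Nat.card t := (Nat.card_eq_card_finite_toFinset htfin).symm
    rw [h3]
    exact le_trans h1 (Nat.add_le_add_right h2 1)
  · rw [← hspan]
    congr 1
    ext p
    constructor
    · rintro ⟨u, hu, rfl⟩
      rw [Finset.mem_coe, Finset.mem_image] at hu
      obtain ⟨p, hp, rfl⟩ := hu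
      have hp' := htfin.mem_toFinset.mp hp
      rw [hf2 p hp']
      exact hp'
    · intro hp
      refine ⟨f p, ?_, hf2 p hp⟩
      rw [Finset.mem_coe, Finset.mem_image]
      exact ⟨p, htfin.mem_toFinset.mpr hp, rfl⟩

section Trace

open MvPolynomial

variable {d : ℕ}

/-- the quadratic polynomial attached to a pair -/
noncomputable def pol (x : V → EuclideanSpace ℝ (Fin d)) :
    Sym2 V → MvPolynomial (V × Fin d) ℝ :=
  Sym2.lift ⟨fun u v => (∑ i, (X (u, i) - X (v, i)) ^ 2) - C (dist (x u) (x v) ^ 2), fun u v => by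
    show (∑ i, (X (u, i) - X (v, i)) ^ 2) - C (dist (x u) (x v) ^ 2)
      = (∑ i, (X (v, i) - X (u, i)) ^ 2) - C (dist (x v) (x u) ^ 2)
    rw [dist_comm (x u)]
    congr 1
    apply Finset.sum_congr rfl
    intro i _
    ring⟩

lemma pol_deg (x : V → EuclideanSpace ℝ (Fin d)) (e : Sym2 V) : (pol x e).totalDegree ≤ 2 := by
  induction e using Sym2.ind with
  | _ u v =>
    show ((∑ i, (X (u, i) - X (v, i)) ^ 2) - C (dist (x u) (x v) ^ 2) :
      MvPolynomial (V × Fin d) ℝ).totalDegree ≤ 2
    refine le_trans (totalDegree_sub _ _) ?_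
    rw [totalDegree_C]
    simp only [Nat.zero_le, sup_of_le_left]
    refine le_trans (totalDegree_finsetSum _ _) ?_
    apply Finset.sup_le
    intro i _
    refine le_trans (totalDegree_pow _ _) ?_
    have : ((X (u, i) - X (v, i)) : MvPolynomial (V × Fin d) ℝ).totalDegree ≤ 1 := by
      refine le_trans (totalDegree_sub _ _) ?_
      simp
    omega

lemma pol_eval (x y : V → EuclideanSpace ℝ (Fin d)) (e : Sym2 V) :
    eval (fun p : V × Fin d => y p.1 p.2) (pol x e) ≠ 0 ↔ badE x y e := by
  induction e using Sym2.ind with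
  | _ u v =>
    have h1 : eval (fun p : V × Fin d => y p.1 p.2) (pol x s(u, v))
        = dist (y u) (y v) ^ 2 - dist (x u) (x v) ^ 2 := by
      show eval (fun p : V × Fin d => y p.1 p.2)
        ((∑ i, (X (u, i) - X (v, i)) ^ 2) - C (dist (x u) (x v) ^ 2)) = _
      simp only [map_sub, map_sum, map_pow, eval_X, eval_C]
      congr 1
      rw [EuclideanSpace.dist_eq, Real.sq_sqrt (Finset.sum_nonneg (fun _ _ => sq_nonneg _))]
      apply Finset.sum_congr rfl
      intro i _
      rw [Real.dist_eq, sq_abs]
    rw [h1, badE_mk, sub_ne_zero]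
    rw [not_iff_not]
    constructor
    · intro h
      exact (sq_eq_sq₀ dist_nonneg dist_nonneg).mp h
    · intro h
      rw [h]

open Classical in
/-- the family of large bad sets inside `V'` -/
noncomputable def bads (x : V → EuclideanSpace ℝ (Fin d)) (V' : Finset V) (M : ℕ) :
    Finset (Finset (Sym2 V)) :=
  Finset.univ.filter (fun B => M ≤ B.card ∧ ∃ y : V → EuclideanSpace ℝ (Fin d),
    B = V'.sym2.filter (badE x y))

lemma trace_bound (x : V → EuclideanSpace ℝ (Fin d)) (V' : Finset V) (M : ℕ) (A : Finset (Sym2 V))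
    (lam : ℝ) (hlam : 0 < lam) :
    (((bads x V' M).image (fun B => A ∩ B)).card : ℝ)
      ≤ ((1 + lam) / lam) ^ (Fintype.card V * d) * ((1 + lam) ^ 2) ^ A.card := by
  classical
  have h := zero_pattern (pol x) (pol_deg x) (A ∩ V'.sym2)
    ((bads x V' M).image (fun B => A ∩ B)) (by
      intro τ hτ
      rw [Finset.mem_image] at hτ
      obtain ⟨B, hB, rfl⟩ := hτ
      unfold bads at hB
      rw [Finset.mem_filter] at hB
      obtain ⟨_, _, y, hy⟩ := hB
      refine ⟨fun p : V × Fin d => y p.1 p.2, ?_⟩
      intro e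
      rw [pol_eval, hy]
      simp only [Finset.mem_inter, Finset.mem_filter]
      tauto) lam hlam
  refine le_trans h ?_
  rw [Fintype.card_prod, Fintype.card_fin]
  apply mul_le_mul_of_nonneg_left _ (by positivity)
  apply pow_le_pow_right₀
  · nlinarith
  · exact Finset.card_le_card Finset.inter_subset_left

end Trace

end Pool.Agent.Recon
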