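import Mathlib

open Finset Module

set_option linter.unusedSectionVars false

namespace Pool.Agent.Recon

variable {E : Type*} [NormedAddCommGroup E] [InnerProductSpace ℝ E] [FiniteDimensional ℝ E]

/-- Equality of all distances gives an affine map, isometric on the affine span. -/
lemma exists_affine_iso {V : Type*} [DecidableEq V] (x y : V → E) (U : Finset V) {u0 : V}
    (hu0 : u0 ∈ U)
    (hgood : ∀ u ∈ U, ∀ w ∈ U, dist (y u) (y w) = dist (x u) (x w)) :
    ∃ T : E →ᵃ[ℝ] E, (∀ u ∈ U, T (x u) = y u) ∧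
      ∀ p ∈ affineSpan ℝ (x '' (U : Set V)), ∀ p' ∈ affineSpan ℝ (x '' (U : Set V)),
        dist (T p) (T p') = dist p p' := by
  classical
  -- the two linear parametrisations
  let b : U → E := fun u => x u - x u0
  let b' : U → E := fun u => y u - y u0
  have hn : ∀ u : U, ‖b' u‖ = ‖b u‖ := by
    intro u
    have := hgood u u.2 u0 hu0
    rw [dist_eq_norm, dist_eq_norm] at this
    exact this
  have hnn : ∀ u w : U, ‖b' u - b' w‖ = ‖b u - b w‖ := by
    intro u w
    have := hgood u u.2 w w.2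
    rw [dist_eq_norm, dist_eq_norm] at this
    have e1 : b' u - b' w = y u - y w := by simp only [b']; abel
    have e2 : b u - b w = x u - x w := by simp only [b]; abel
    rw [e1, e2, this]
  have hin : ∀ u w : U, inner ℝ (b' u) (b' w) = inner ℝ (b u) (b w) := by
    intro u w
    rw [real_inner_eq_norm_mul_self_add_norm_mul_self_sub_norm_sub_mul_self_div_two,
      real_inner_eq_norm_mul_self_add_norm_mul_self_sub_norm_sub_mul_self_div_two,
      hn u, hn w, hnn u w]
  let Φ : (U → ℝ) →ₗ[ℝ] E := Fintype.linearCombination ℝ b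
  let Φ' : (U → ℝ) →ₗ[ℝ] E := Fintype.linearCombination ℝ b'
  have hnorm : ∀ c : U → ℝ, ‖Φ' c‖ = ‖Φ c‖ := by
    intro c
    have h1 : inner ℝ (Φ' c) (Φ' c) = inner ℝ (Φ c) (Φ c) := by
      simp only [Φ, Φ', Fintype.linearCombination_apply, sum_inner, inner_sum, inner_smul_left,
        inner_smul_right, hin]
    rw [real_inner_self_eq_norm_sq, real_inner_self_eq_norm_sq] at h1
    exact (sq_eq_sq₀ (norm_nonneg _) (norm_nonneg _)).mp h1
  obtain ⟨g, hg⟩ := Φ.rangeRestrict.exists_rightInverse_of_surjective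
    (LinearMap.range_rangeRestrict Φ)
  obtain ⟨L, hL⟩ := LinearMap.exists_extend (Φ'.comp g)
  have hLΦ : ∀ c, L (Φ c) = Φ' c := by
    intro c
    have h1 : L (Φ c) = Φ' (g (Φ.rangeRestrict c)) := by
      have := LinearMap.congr_fun hL (Φ.rangeRestrict c)
      simpa using this
    have h2 : Φ (g (Φ.rangeRestrict c)) = Φ c := by
      have := LinearMap.congr_fun hg (Φ.rangeRestrict c)
      have h3 := congrArg Subtype.val this
      simpa using h3
    have h3 : ‖Φ' (g (Φ.rangeRestrict c) - c)‖ = 0 := by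
      rw [hnorm, map_sub, h2, sub_self, norm_zero]
    rw [h1]
    rw [map_sub, norm_eq_zero, sub_eq_zero] at h3
    exact h3
  have hb : ∀ u : U, Φ (Pi.single u 1) = b u := by
    intro u
    simp only [Φ, Fintype.linearCombination_apply_single, one_smul]
  have hb' : ∀ u : U, Φ' (Pi.single u 1) = b' u := by
    intro u
    simp only [Φ', Fintype.linearCombination_apply_single, one_smul]
  let T : E →ᵃ[ℝ] E := AffineMap.mk' (fun p => L (p - x u0) + y u0) L (x u0) (by
    intro p'
    simp)
  have hT : ∀ p, T p = L (p - x u0) + y u0 := fun p => rfl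
  refine ⟨T, ?_, ?_⟩
  · intro u hu
    rw [hT]
    have h1 : x u - x u0 = Φ (Pi.single ⟨u, hu⟩ 1) := by rw [hb]
    rw [h1, hLΦ, hb']
    simp [b']
  · intro p hp p' hp'
    have hspan : p - p' ∈ LinearMap.range Φ := by
      have h1 : p - p' ∈ (affineSpan ℝ (x '' (U : Set V))).direction := by
        have := AffineSubspace.vsub_mem_direction hp hp'
        simpa using this
      rw [direction_affineSpan, vectorSpan_eq_span_vsub_set_right ℝ
        (Set.mem_image_of_mem x (Finset.mem_coe.mpr hu0))] at h1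
      refine Submodule.span_le.mpr ?_ h1
      rintro _ ⟨_, ⟨u, hu, rfl⟩, rfl⟩
      refine ⟨Pi.single ⟨u, hu⟩ 1, ?_⟩
      rw [hb]
      rfl
    obtain ⟨c, hc⟩ := hspan
    rw [dist_eq_norm, dist_eq_norm, hT, hT]
    have : L (p - x u0) + y u0 - (L (p' - x u0) + y u0) = L (p - p') := by
      simp only [map_sub]; abel
    rw [this, ← hc, hLΦ, hnorm]

/-- Existence of a good frame: a small set `U` of typical points, pairwise good, spanning `A`. -/
lemma exists_frame {V : Type*} [Fintype V] [DecidableEq V] (x y : V → E)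
    (A : AffineSubspace ℝ E) (V' : Finset V) (hV' : ∀ v ∈ V', x v ∈ A)
    (typ : V → Prop) (k1 k2 m1 : ℕ)
    (hatyp : ∀ B ⊆ V', (∀ v ∈ B, ¬ typ v) → B.card ≤ k1)
    (hnd : ∀ F : AffineSubspace ℝ E, F < A → ∀ B ⊆ V', (∀ v ∈ B, x v ∈ F) → B.card ≤ k2)
    (htyp : ∀ v ∈ V', typ v → ∀ B ⊆ V', (∀ u ∈ B, dist (y v) (y u) ≠ dist (x v) (x u)) →
      B.card ≤ m1)
    (hbig : k1 + k2 + (finrank ℝ E + 1) * m1 < V'.card) :
    ∃ U ⊆ V', U.Nonempty ∧ (∀ u ∈ U, ∀ w ∈ U, dist (y u) (y w) = dist (x u) (x w)) ∧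
      affineSpan ℝ (x '' (U : Set V)) = A ∧
      ∀ B ⊆ V', (∀ v ∈ B, ∃ u ∈ U, dist (y v) (y u) ≠ dist (x v) (x u)) →
        B.card ≤ (finrank ℝ E + 1) * m1 := by
  classical
  let P : Finset V → Prop := fun U => U ⊆ V' ∧ U.Nonempty ∧ (∀ u ∈ U, typ u) ∧
    (∀ u ∈ U, ∀ w ∈ U, dist (y u) (y w) = dist (x u) (x w)) ∧
    U.card ≤ finrank ℝ (affineSpan ℝ (x '' (U : Set V))).direction + 1
  have hfrle : ∀ U : Finset V, finrank ℝ (affineSpan ℝ (x '' (U : Set V))).direction
      ≤ finrank ℝ E := fun U => Submodule.finrank_le _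
  -- a nonempty family
  have hne : ∃ U, P U := by
    have : ∃ v ∈ V', typ v := by
      by_contra hcon
      push Not at hcon
      have := hatyp V' (Finset.Subset.refl _) hcon
      omega
    obtain ⟨v, hv, hvt⟩ := this
    refine ⟨{v}, by simpa using hv, Finset.singleton_nonempty v, by simpa using hvt, by simp,
      by simp⟩
  -- maximise the dimension
  obtain ⟨U, hU, hmax⟩ : ∃ U, P U ∧ ∀ U', P U' →
      finrank ℝ (affineSpan ℝ (x '' (U' : Set V))).direction
        ≤ finrank ℝ (affineSpan ℝ (x '' (U : Set V))).direction := by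
    have hfin := Finset.exists_max_image (Finset.univ.filter P)
      (fun U : Finset V => finrank ℝ (affineSpan ℝ (x '' (U : Set V))).direction)
      (by obtain ⟨U, hU⟩ := hne; exact ⟨U, by simp [hU]⟩)
    obtain ⟨U, hU, hmax⟩ := hfin
    refine ⟨U, by simpa using hU, fun U' hU' => hmax U' (by simp [hU'])⟩
  obtain ⟨hUV, hUne, hUtyp, hUgood, hUcard⟩ := hU
  have hUcard' : U.card ≤ finrank ℝ E + 1 := le_trans hUcard (by have := hfrle U; omega)
  -- few points are bad with respect to `U`
  have hfew : ∀ B ⊆ V', (∀ v ∈ B, ∃ u ∈ U, dist (y v) (y u) ≠ dist (x v) (x u)) →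
        B.card ≤ (finrank ℝ E + 1) * m1 := by
    intro B hB hbad
    have hsub : B ⊆ U.biUnion (fun u => B.filter (fun v => dist (y u) (y v) ≠ dist (x u) (x v))) := by
      intro v hv
      obtain ⟨u, hu, hne⟩ := hbad v hv
      rw [Finset.mem_biUnion]
      refine ⟨u, hu, ?_⟩
      rw [Finset.mem_filter]
      refine ⟨hv, ?_⟩
      rw [dist_comm (y u), dist_comm (x u)]
      exact hne
    calc B.card ≤ (U.biUnion (fun u => B.filter
          (fun v => dist (y u) (y v) ≠ dist (x u) (x v)))).card := Finset.card_le_card hsub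
      _ ≤ ∑ u ∈ U, (B.filter (fun v => dist (y u) (y v) ≠ dist (x u) (x v))).card :=
          Finset.card_biUnion_le
      _ ≤ ∑ _u ∈ U, m1 := by
          apply Finset.sum_le_sum
          intro u hu
          apply htyp u (hUV hu) (hUtyp u hu)
          · exact (Finset.filter_subset _ _).trans hB
          · intro v hv
            exact (Finset.mem_filter.mp hv).2
      _ = U.card * m1 := by simp
      _ ≤ (finrank ℝ E + 1) * m1 := Nat.mul_le_mul_right _ hUcard'
  refine ⟨U, hUV, hUne, hUgood, ?_, hfew⟩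
  -- the span is everything
  have hle : affineSpan ℝ (x '' (U : Set V)) ≤ A := by
    rw [affineSpan_le]
    rintro _ ⟨u, hu, rfl⟩
    exact hV' u (hUV hu)
  by_contra hneA
  have hlt : affineSpan ℝ (x '' (U : Set V)) < A := lt_of_le_of_ne hle hneA
  -- find a new point
  have hnew : ∃ v ∈ V', typ v ∧ x v ∉ affineSpan ℝ (x '' (U : Set V)) ∧
      ∀ u ∈ U, dist (y v) (y u) = dist (x v) (x u) := by
    by_contra hcon
    push Not at hcon
    have hcover : V' ⊆ (V'.filter (fun v => ¬ typ v)) ∪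
        ((V'.filter (fun v => x v ∈ affineSpan ℝ (x '' (U : Set V)))) ∪
        (V'.filter (fun v => ∃ u ∈ U, dist (y v) (y u) ≠ dist (x v) (x u)))) := by
      intro v hv
      simp only [Finset.mem_union, Finset.mem_filter, hv, true_and]
      by_cases h1 : typ v
      · by_cases h2 : x v ∈ affineSpan ℝ (x '' (U : Set V))
        · exact Or.inr (Or.inl h2)
        · exact Or.inr (Or.inr (hcon v hv h1 h2))
      · exact Or.inl h1
    have c0 := Finset.card_le_card hcover
    have c1 := Finset.card_union_le (V'.filter (fun v => ¬ typ v))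
        ((V'.filter (fun v => x v ∈ affineSpan ℝ (x '' (U : Set V)))) ∪
        (V'.filter (fun v => ∃ u ∈ U, dist (y v) (y u) ≠ dist (x v) (x u))))
    have c2 := Finset.card_union_le
        (V'.filter (fun v => x v ∈ affineSpan ℝ (x '' (U : Set V))))
        (V'.filter (fun v => ∃ u ∈ U, dist (y v) (y u) ≠ dist (x v) (x u)))
    have c3 := hatyp (V'.filter (fun v => ¬ typ v)) (Finset.filter_subset _ _)
      (fun v hv => (Finset.mem_filter.mp hv).2)
    have c4 := hnd _ hlt (V'.filter (fun v => x v ∈ affineSpan ℝ (x '' (U : Set V))))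
      (Finset.filter_subset _ _) (fun v hv => (Finset.mem_filter.mp hv).2)
    have c5 := hfew (V'.filter (fun v => ∃ u ∈ U, dist (y v) (y u) ≠ dist (x v) (x u)))
      (Finset.filter_subset _ _) (fun v hv => (Finset.mem_filter.mp hv).2)
    omega
  obtain ⟨v, hv, hvt, hvs, hvg⟩ := hnew
  have hvU : v ∉ U := by
    intro h
    exact hvs (subset_affineSpan ℝ _ (Set.mem_image_of_mem x (Finset.mem_coe.mpr h)))
  -- the dimension increases
  have hltspan : affineSpan ℝ (x '' (U : Set V))
      < affineSpan ℝ (x '' ((insert v U : Finset V) : Set V)) := by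
    rw [SetLike.lt_iff_le_and_exists]
    constructor
    · apply affineSpan_mono
      apply Set.image_mono
      simp
    · exact ⟨x v, subset_affineSpan ℝ _ (Set.mem_image_of_mem x (by simp)), hvs⟩
  have hnonempty : (affineSpan ℝ (x '' (U : Set V)) : Set E).Nonempty := by
    obtain ⟨u, hu⟩ := hUne
    exact ⟨x u, subset_affineSpan ℝ _ (Set.mem_image_of_mem x (Finset.mem_coe.mpr hu))⟩
  have hdir := AffineSubspace.direction_lt_of_nonempty hltspan hnonempty
  have hfr := Submodule.finrank_lt_finrank_of_lt hdir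
  have hP' : P (insert v U) := by
    refine ⟨?_, ⟨v, Finset.mem_insert_self v U⟩, ?_, ?_, ?_⟩
    · exact Finset.insert_subset hv hUV
    · intro u hu
      rcases Finset.mem_insert.mp hu with rfl | hu
      · exact hvt
      · exact hUtyp u hu
    · intro u hu w hw
      rcases Finset.mem_insert.mp hu with hu' | hu'
      · rcases Finset.mem_insert.mp hw with hw' | hw'
        · rw [hu', hw']; simp
        · rw [hu']; exact hvg w hw'
      · rcases Finset.mem_insert.mp hw with hw' | hw'
        · rw [hw', dist_comm (y u), dist_comm (x u)]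
          exact hvg u hu'
        · exact hUgood u hu' w hw'
    · rw [Finset.card_insert_of_notMem hvU]
      omega
  have := hmax _ hP'
  omega

/-- The deterministic heart: a robust core on which every consistent placement is rigid. -/
theorem core_rigid {V : Type*} [Fintype V] [DecidableEq V] (x y : V → E)
    (A : AffineSubspace ℝ E) (V' K : Finset V) (hV' : ∀ v ∈ V', x v ∈ A) (hK : K ⊆ V')
    (adj : V → V → Prop) (typ : V → Prop) (k1 k2 m1 D1 : ℕ)
    (hatyp : ∀ B ⊆ V', (∀ v ∈ B, ¬ typ v) → B.card ≤ k1)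
    (hnd : ∀ F : AffineSubspace ℝ E, F < A → ∀ B ⊆ V', (∀ v ∈ B, x v ∈ F) → B.card ≤ k2)
    (htyp : ∀ v ∈ V', typ v → ∀ B ⊆ V', (∀ u ∈ B, dist (y v) (y u) ≠ dist (x v) (x u)) →
      B.card ≤ m1)
    (hbig : k1 + k2 + (finrank ℝ E + 1) * m1 < V'.card)
    (hcons : ∀ u v, adj u v → dist (y u) (y v) = dist (x u) (x v))
    (hcore : ∀ v ∈ K, ∀ F : AffineSubspace ℝ E, F < A →
      ∃ B ⊆ K, (∀ u ∈ B, adj v u ∧ x u ∉ F) ∧ D1 ≤ B.card)
    (hsparse : ∀ W ⊆ K, W.Nonempty → W.card ≤ (finrank ℝ E + 1) * m1 →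
      ∃ v ∈ W, ∀ B ⊆ W, (∀ u ∈ B, adj v u) → B.card < D1) :
    ∀ u ∈ K, ∀ w ∈ K, dist (y u) (y w) = dist (x u) (x w) := by
  classical
  obtain ⟨U, hUV, hUne, hUgood, hUspan, hUfew⟩ :=
    exists_frame x y A V' hV' typ k1 k2 m1 hatyp hnd htyp hbig
  obtain ⟨u0, hu0⟩ := hUne
  obtain ⟨T, hT1, hT2⟩ := exists_affine_iso x y U hu0 hUgood
  rw [hUspan] at hT2
  -- the exceptional set
  set W : Finset V := K.filter (fun v => y v ≠ T (x v)) with hW
  -- for an exceptional vertex, the comap of the bisector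
  have hF : ∀ v ∈ V', y v ≠ T (x v) →
      ((AffineSubspace.perpBisector (y v) (T (x v))).comap T ⊓ A < A) := by
    intro v hv hne
    rw [SetLike.lt_iff_le_and_exists]
    refine ⟨inf_le_right, x v, hV' v hv, ?_⟩
    intro hmem
    rw [AffineSubspace.mem_inf_iff, AffineSubspace.mem_comap,
      AffineSubspace.mem_perpBisector_iff_dist_eq] at hmem
    have := hmem.1
    rw [dist_self] at this
    exact hne (dist_eq_zero.mp this).symm
  have hmemF : ∀ v ∈ V', ∀ w ∈ V', y w = T (x w) → dist (y v) (y w) = dist (x v) (x w) →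
      x w ∈ (AffineSubspace.perpBisector (y v) (T (x v))).comap T ⊓ A := by
    intro v hv w hw hyw hd
    rw [AffineSubspace.mem_inf_iff, AffineSubspace.mem_comap,
      AffineSubspace.mem_perpBisector_iff_dist_eq]
    refine ⟨?_, hV' w hw⟩
    rw [← hyw, dist_comm, hd, dist_comm (y w), hyw, hT2 _ (hV' v hv) _ (hV' w hw)]
  have hWcard : W.card ≤ (finrank ℝ E + 1) * m1 := by
    apply hUfew W ((Finset.filter_subset _ _).trans hK)
    intro v hv
    rw [hW, Finset.mem_filter] at hv
    by_contra hcon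
    push Not at hcon
    have hlt := hF v (hK hv.1) hv.2
    have hle : A ≤ (AffineSubspace.perpBisector (y v) (T (x v))).comap T ⊓ A := by
      rw [← hUspan]
      nth_rewrite 1 [affineSpan_le]
      rintro _ ⟨u, hu, rfl⟩
      rw [hUspan]
      exact hmemF v (hK hv.1) u (hUV hu) (hT1 u hu).symm (hcon u hu)
    exact absurd hlt (not_lt_of_ge hle)
  have hWempty : ¬ W.Nonempty := by
    intro hWne
    obtain ⟨v, hvW, hv⟩ := hsparse W (Finset.filter_subset _ _) hWne hWcard
    have hvW' := hvW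
    rw [hW, Finset.mem_filter] at hvW'
    obtain ⟨B, hB, hB1, hB2⟩ := hcore v hvW'.1 _ (hF v (hK hvW'.1) hvW'.2)
    have hBW : B ⊆ W := by
      intro u hu
      rw [hW, Finset.mem_filter]
      refine ⟨hB hu, ?_⟩
      intro hyu
      obtain ⟨h1, h2⟩ := hB1 u hu
      exact h2 (hmemF v (hK hvW'.1) u (hK (hB hu)) hyu (hcons v u h1))
    have := hv B hBW (fun u hu => (hB1 u hu).1)
    omega
  intro u hu w hw
  have h1 : ∀ v ∈ K, y v = T (x v) := by
    intro v hv
    by_contra hne
    exact hWempty ⟨v, by rw [hW, Finset.mem_filter]; exact ⟨hv, hne⟩⟩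
  rw [h1 u hu, h1 w hw]
  exact hT2 _ (hV' u (hK hu)) _ (hV' w (hK hw))

end Pool.Agent.Recon
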