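import Pool.Agent.Recon.EpsNet

open Finset MeasureTheory SimpleGraph

set_option linter.unusedSectionVars false

namespace Pool.Agent.Recon

variable {V : Type*} [Fintype V] [DecidableEq V]

/-- the graph of present pairs -/
def gr (ω : Sym2 V → Bool) : SimpleGraph V where
  Adj u v := u ≠ v ∧ ω s(u, v) = true
  symm := ⟨fun u v h => ⟨h.1.symm, by rw [Sym2.eq_swap]; exact h.2⟩⟩
  loopless := ⟨fun u h => h.1 rfl⟩

lemma gr_edge (ω : Sym2 V → Bool) (e : Sym2 V) :
    e ∈ (gr ω).edgeSet ↔ ¬ e.IsDiag ∧ ω e = true := by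
  induction e using Sym2.ind with
  | _ u v =>
    rw [SimpleGraph.mem_edgeSet]
    simp [gr]

lemma bw_prod_pow (p : ℝ) (s : Finset (Sym2 V)) (P : Sym2 V → Prop) [DecidablePred P] :
    ∏ e ∈ s, bw p (decide (P e)) = p ^ (s.filter P).card * (1 - p) ^ (s.filter (fun e => ¬ P e)).card := by
  have h : ∀ e ∈ s, bw p (decide (P e)) = if P e then p else 1 - p := by
    intro e _
    unfold bw
    by_cases h : P e <;> simp [h]
  rw [Finset.prod_congr rfl h, Finset.prod_ite]
  simp

/-- probability of a given graph -/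
lemma Pr_gr_eq {p : ℝ} (G : SimpleGraph V) :
    Pr (bw p) (fun ω : Sym2 V → Bool => gr ω = G)
      = p ^ G.edgeSet.ncard * (1 - p) ^ ((Nat.card V).choose 2 - G.edgeSet.ncard) := by
  classical
  rw [Pr_eq]
  have h1 : (fun ω : Sym2 V → Bool => if gr ω = G then (1 : ℝ) else 0)
      = fun ω => ∏ e, (if e.IsDiag then (1 : ℝ)
        else if ω e = decide (e ∈ G.edgeSet) then 1 else 0) := by
    funext ω
    by_cases h : gr ω = G
    · rw [if_pos h]
      symm
      apply Finset.prod_eq_one
      intro e _
      by_cases hd : e.IsDiag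
      · rw [if_pos hd]
      · rw [if_neg hd, if_pos]
        have := gr_edge ω e
        rw [h] at this
        by_cases he : e ∈ G.edgeSet
        · simp [he, (this.mp he).2]
        · simp only [he, decide_false]
          by_contra hne
          exact he (this.mpr ⟨hd, by simpa using hne⟩)
    · rw [if_neg h]
      symm
      have : ∃ e : Sym2 V, ¬ (e ∈ (gr ω).edgeSet ↔ e ∈ G.edgeSet) := by
        by_contra hcon
        push Not at hcon
        apply h
        rw [← SimpleGraph.edgeSet_inj]
        ext e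
        exact hcon e
      obtain ⟨e, he⟩ := this
      apply Finset.prod_eq_zero (Finset.mem_univ e)
      have hnd : ¬ e.IsDiag := by
        intro hd
        apply he
        constructor
        · intro h1; exact absurd hd ((gr_edge ω e).mp h1).1
        · intro h1; exact absurd hd (SimpleGraph.not_isDiag_of_mem_edgeSet G h1)
      rw [if_neg hnd, if_neg]
      intro heq
      apply he
      rw [gr_edge]
      constructor
      · rintro ⟨_, h2⟩
        rw [h2] at heq
        simpa using heq.symm
      · intro h2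
        exact ⟨hnd, by rw [heq]; simpa using h2⟩
  rw [h1]
  refine (Ex_prod (α := Sym2 V) (bw p) (fun e b => if e.IsDiag then (1 : ℝ)
        else if b = decide (e ∈ G.edgeSet) then 1 else 0)).trans ?_
  have h2 : ∀ e : Sym2 V, (∑ b, bw p b * (if e.IsDiag then (1 : ℝ)
        else if b = decide (e ∈ G.edgeSet) then 1 else 0))
      = if e.IsDiag then 1 else bw p (decide (e ∈ G.edgeSet)) := by
    intro e
    by_cases hd : e.IsDiag
    · simp [hd, bw]
    · simp [hd]
  simp_rw [h2]
  rw [Finset.prod_ite]
  simp only [Finset.prod_const_one, one_mul]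
  rw [bw_prod_pow]
  have hE : (Finset.univ.filter (fun e : Sym2 V => ¬ e.IsDiag)).filter (fun e => e ∈ G.edgeSet)
      = G.edgeSet.toFinset := by
    ext e
    simp only [Finset.mem_filter, Finset.mem_univ, true_and, Set.mem_toFinset]
    exact ⟨fun h => h.2, fun h => ⟨SimpleGraph.not_isDiag_of_mem_edgeSet G h, h⟩⟩
  have hnd : (Finset.univ.filter (fun e : Sym2 V => ¬ e.IsDiag)).card = (Nat.card V).choose 2 := by
    rw [Nat.card_eq_fintype_card, ← Sym2.card_subtype_not_diag, Fintype.card_subtype]
  have hsum := Finset.card_filter_add_card_filter_not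
    (s := Finset.univ.filter (fun e : Sym2 V => ¬ e.IsDiag)) (fun e => e ∈ G.edgeSet)
  have hncard : G.edgeSet.ncard = G.edgeSet.toFinset.card := Set.ncard_eq_toFinset_card' _
  rw [hE] at hsum
  rw [hnd] at hsum
  rw [hncard, hE]
  congr 2
  omega

/-- The binomial random graph of Mathlib is the graph of present pairs. -/
lemma binomial_eq (p : unitInterval) (S : Set (SimpleGraph V)) :
    (SimpleGraph.binomialRandom V p).real S
      = Pr (bw (p : ℝ)) (fun ω : Sym2 V → Bool => gr ω ∈ S) := by
  classical
  have h1 : S = ⋃ G ∈ (Finset.univ.filter (fun G => G ∈ S) : Finset (SimpleGraph V)), {G} := by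
    ext G
    simp
  have h2 : (SimpleGraph.binomialRandom V p).real S
      = ∑ G ∈ (Finset.univ.filter (fun G => G ∈ S) : Finset (SimpleGraph V)),
        (SimpleGraph.binomialRandom V p).real {G} := by
    conv_lhs => rw [h1]
    rw [measureReal_biUnion_finset]
    · intro G _ G' _ hne
      simpa using hne
    · intro G _
      have hG : ({G} : Set (SimpleGraph V)) = SimpleGraph.edgeSet ⁻¹' {G.edgeSet} := by
        ext G'
        simp
      rw [hG]
      exact SimpleGraph.measurable_edgeSet (MeasurableSet.singleton _)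
  have h3 : Pr (bw (p : ℝ)) (fun ω : Sym2 V → Bool => gr ω ∈ S)
      = ∑ G ∈ (Finset.univ.filter (fun G => G ∈ S) : Finset (SimpleGraph V)),
        Pr (bw (p : ℝ)) (fun ω : Sym2 V → Bool => gr ω = G) := by
    simp_rw [Pr_eq]
    rw [← Ex_sum]
    congr 1
    funext ω
    rw [Finset.sum_ite_eq]
    simp
  rw [h2, h3]
  apply Finset.sum_congr rfl
  intro G _
  rw [Pr_gr_eq, measureReal_def, SimpleGraph.binomialRandom_singleton]
  simp

/-- monotonicity in `p` -/
lemma Pr_anti {α : Type*} [Fintype α] [DecidableEq α] {p p' : ℝ} (hp0 : 0 ≤ p) (hpp : p ≤ p')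
    (hp1 : p' ≤ 1) (S : (α → Bool) → Prop)
    (hS : ∀ ω ω' : α → Bool, (∀ a, ω a = true → ω' a = true) → S ω' → S ω) :
    Pr (bw p') S ≤ Pr (bw p) S := by
  classical
  let w : Fin 3 → ℝ := ![1 - p', p' - p, p]
  have hw : ∀ b, 0 ≤ w b := by
    intro b
    fin_cases b <;> simp [w] <;> linarith
  let φ1 : Fin 3 → Bool := fun b => decide (b = 2)
  let φ2 : Fin 3 → Bool := fun b => decide (b ≠ 0)
  have e1 : (fun c => ∑ b, if φ1 b = c then w b else 0) = bw p := by
    funext c
    rw [Fin.sum_univ_three]
    cases c <;> simp [φ1, w, bw]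
  have e2 : (fun c => ∑ b, if φ2 b = c then w b else 0) = bw p' := by
    funext c
    rw [Fin.sum_univ_three]
    cases c <;> simp [φ2, w, bw]
  rw [← e1, ← e2, ← Pr_push, ← Pr_push]
  apply Pr_mono hw
  intro ω hω
  apply hS _ _ _ hω
  intro a ha
  simp only [Function.comp, φ1, φ2, decide_eq_true_eq] at ha ⊢
  rw [ha]
  decide

end Pool.Agent.Recon
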