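import Pool.Agent.Recon.Upper2

open Finset Module Filter Topology

set_option linter.unusedSectionVars false

namespace Pool.Agent.Recon

lemma exists_D (d : ℕ) : ∃ D : ℕ, 2 ≤ D ∧
    8 * Real.exp 1 * (Real.exp 1 * cc d) ≤ 4 ^ D ∧
    48 * Real.exp 1 * cc d * ((d + 2) * ((cc d : ℝ) * D) ^ (d + 1) * 2 ^ (4 * D) *
      Real.exp (-(8 * D))) ≤ 1 / 2 ∧
    (384 * (QQ d : ℝ) + 1) ^ d * Real.exp (-((cc d : ℝ) * D / (64 * QQ d))) ≤ 1 / 2 := by
  have hc0 : (0 : ℝ) < cc d := by exact_mod_cast cc_pos d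
  have hQ0 : (0 : ℝ) < QQ d := by exact_mod_cast QQ_pos d
  have h1 : ∀ᶠ D : ℕ in atTop, 2 ≤ D := eventually_ge_atTop 2
  have h2 : ∀ᶠ D : ℕ in atTop, 8 * Real.exp 1 * (Real.exp 1 * cc d) ≤ (4 : ℝ) ^ D :=
    (tendsto_pow_atTop_atTop_of_one_lt (by norm_num : (1 : ℝ) < 4)).eventually_ge_atTop _
  -- third
  have h3 : ∀ᶠ D : ℕ in atTop, 48 * Real.exp 1 * cc d * ((d + 2) * ((cc d : ℝ) * D) ^ (d + 1) *
      2 ^ (4 * D) * Real.exp (-(8 * D))) ≤ 1 / 2 := by
    have ht : Tendsto (fun D : ℕ => (48 * Real.exp 1 * cc d * (d + 2) * (cc d : ℝ) ^ (d + 1)) *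
        ((D : ℝ) ^ (d + 1) * Real.exp (-(D : ℝ)))) atTop (𝓝 ((48 * Real.exp 1 * cc d * (d + 2) *
        (cc d : ℝ) ^ (d + 1)) * 0)) :=
      ((Real.tendsto_pow_mul_exp_neg_atTop_nhds_zero (d + 1)).comp
        tendsto_natCast_atTop_atTop).const_mul _
    rw [mul_zero] at ht
    have hev := ht.eventually (gt_mem_nhds (by norm_num : (0 : ℝ) < 1 / 2))
    filter_upwards [hev] with D hD
    have h16 : (2 : ℝ) ^ (4 * D) * Real.exp (-(8 * D)) ≤ Real.exp (-(D : ℝ)) := by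
      have e1 : (2 : ℝ) ^ (4 * D) = 16 ^ D := by rw [pow_mul]; norm_num
      have e2 : (16 : ℝ) ≤ Real.exp 3 := by
        have h := Real.exp_one_gt_d9
        have : Real.exp 3 = (Real.exp 1) ^ 3 := by rw [← Real.exp_nat_mul]; norm_num
        rw [this]
        have h2 : (2.7 : ℝ) ≤ Real.exp 1 := by linarith
        calc (16 : ℝ) ≤ (2.7 : ℝ) ^ 3 := by norm_num
          _ ≤ (Real.exp 1) ^ 3 := pow_le_pow_left₀ (by norm_num) h2 _
      have e3 : (16 : ℝ) ^ D ≤ Real.exp (3 * D) := by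
        calc (16 : ℝ) ^ D ≤ (Real.exp 3) ^ D := pow_le_pow_left₀ (by norm_num) e2 _
          _ = Real.exp (3 * D) := by rw [← Real.exp_nat_mul]; congr 1; ring
      calc (2 : ℝ) ^ (4 * D) * Real.exp (-(8 * D)) ≤ Real.exp (3 * D) * Real.exp (-(8 * D)) := by
            rw [e1]
            exact mul_le_mul_of_nonneg_right e3 (Real.exp_nonneg _)
        _ = Real.exp (-(5 * D)) := by rw [← Real.exp_add]; congr 1; ring
        _ ≤ Real.exp (-(D : ℝ)) := by
            apply Real.exp_le_exp.mpr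
            have : (0 : ℝ) ≤ D := Nat.cast_nonneg D
            linarith
    calc 48 * Real.exp 1 * cc d * ((d + 2) * ((cc d : ℝ) * D) ^ (d + 1) *
      2 ^ (4 * D) * Real.exp (-(8 * D)))
        = (48 * Real.exp 1 * cc d * (d + 2) * (cc d : ℝ) ^ (d + 1) * (D : ℝ) ^ (d + 1)) *
          (2 ^ (4 * D) * Real.exp (-(8 * D))) := by rw [mul_pow]; ring
      _ ≤ (48 * Real.exp 1 * cc d * (d + 2) * (cc d : ℝ) ^ (d + 1) * (D : ℝ) ^ (d + 1)) *
          Real.exp (-(D : ℝ)) := mul_le_mul_of_nonneg_left h16 (by positivity)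
      _ = (48 * Real.exp 1 * cc d * (d + 2) * (cc d : ℝ) ^ (d + 1)) *
        ((D : ℝ) ^ (d + 1) * Real.exp (-(D : ℝ))) := by ring
      _ ≤ 1 / 2 := hD.le
  have h4 : ∀ᶠ D : ℕ in atTop,
      (384 * (QQ d : ℝ) + 1) ^ d * Real.exp (-((cc d : ℝ) * D / (64 * QQ d))) ≤ 1 / 2 := by
    have ht0 : Tendsto (fun D : ℕ => (cc d : ℝ) * D / (64 * QQ d)) atTop atTop := by
      have : (fun D : ℕ => (cc d : ℝ) * D / (64 * QQ d))
          = fun D : ℕ => ((cc d : ℝ) / (64 * QQ d)) * (D : ℝ) := by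
        funext D; ring
      rw [this]
      exact Tendsto.const_mul_atTop (by positivity) tendsto_natCast_atTop_atTop
    have ht : Tendsto (fun D : ℕ => (384 * (QQ d : ℝ) + 1) ^ d *
        Real.exp (-((cc d : ℝ) * D / (64 * QQ d)))) atTop
        (𝓝 ((384 * (QQ d : ℝ) + 1) ^ d * 0)) :=
      (Real.tendsto_exp_neg_atTop_nhds_zero.comp ht0).const_mul _
    rw [mul_zero] at ht
    have hev := ht.eventually (gt_mem_nhds (by norm_num : (0 : ℝ) < 1 / 2))
    filter_upwards [hev] with D hD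
    exact hD.le
  obtain ⟨D, hD1, hD2, hD3, hD4⟩ := (h1.and (h2.and (h3.and h4))).exists
  exact ⟨D, hD1, hD2, hD3, hD4⟩

/-- The upper side at `q = C/n`, in limiting form. -/
theorem upper_limit (d : ℕ) : ∃ C : ℝ, 1 ≤ C ∧ ∀ η : ℝ, 0 < η → ∃ n₀ : ℕ, ∀ n ≥ n₀,
    ∀ x : Fin n → EuclideanSpace ℝ (Fin d),
      C / n ≤ 1 ∧ Pr (bw (C / n)) (fun ω : Sym2 (Fin n) → Bool => ¬ Good x ω) ≤ η := by
  obtain ⟨D, hD, hA, hB, hC'⟩ := exists_D d
  have hc0 : (0 : ℝ) < cc d := by exact_mod_cast cc_pos d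
  have hc1 : (1 : ℝ) ≤ cc d := by exact_mod_cast cc_pos d
  have hQ0 : (0 : ℝ) < QQ d := by exact_mod_cast QQ_pos d
  have hD0 : (0 : ℝ) < D := by
    have : 0 < D := by omega
    exact_mod_cast this
  have hD1 : (1 : ℝ) ≤ D := by
    have : 1 ≤ D := by omega
    exact_mod_cast this
  refine ⟨(cc d : ℝ) * D, by nlinarith, ?_⟩
  intro η hη
  -- the error terms
  have t1 : Tendsto (fun n : ℕ => Real.exp (-((cc d : ℝ) * D * n / (8 * QQ d)))) atTop (𝓝 0) := by
    have ht0 : Tendsto (fun n : ℕ => (cc d : ℝ) * D * n / (8 * QQ d)) atTop atTop := by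
      have : (fun n : ℕ => (cc d : ℝ) * D * n / (8 * QQ d))
          = fun n : ℕ => ((cc d : ℝ) * D / (8 * QQ d)) * (n : ℝ) := by
        funext n; ring
      rw [this]
      exact Tendsto.const_mul_atTop (by positivity) tendsto_natCast_atTop_atTop
    exact Real.tendsto_exp_neg_atTop_nhds_zero.comp ht0
  have t2 : Tendsto (fun n : ℕ => (1 / 2 : ℝ) ^ n) atTop (𝓝 0) :=
    tendsto_pow_atTop_nhds_zero_of_lt_one (by norm_num) (by norm_num)
  have t3 : Tendsto (fun n : ℕ => 8 * (Real.exp 1 * cc d) / (n : ℝ)) atTop (𝓝 0) :=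
    tendsto_const_div_atTop_nhds_zero_nat _
  have t4 : Tendsto (fun n : ℕ => (1 / 2 : ℝ) ^ (n / (24 * cc d))) atTop (𝓝 0) :=
    t2.comp (Nat.tendsto_div_const_atTop (by have := cc_pos d; omega))
  have tt := (t1.add t2).add (t3.add t4)
  simp only [add_zero] at tt
  have hev := tt.eventually (gt_mem_nhds hη)
  have hall := (hev.and ((eventually_ge_atTop (2 * QQ d)).and
    ((eventually_ge_atTop (2 * (cc d * D))).and ((eventually_ge_atTop (16 * QQ d)).and
      (eventually_ge_atTop (24 * cc d))))))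
  obtain ⟨n₀, hn₀⟩ := eventually_atTop.mp hall
  refine ⟨n₀, ?_⟩
  intro n hn x
  obtain ⟨g1, g2, g3, g4, g5⟩ := hn₀ n hn
  have hn0 : (0 : ℝ) < n := by
    have h1 := QQ_pos d
    have h2 : 0 < n := by omega
    exact_mod_cast h2
  constructor
  · rw [div_le_one hn0]
    have : (2 : ℝ) * ((cc d : ℝ) * D) ≤ n := by exact_mod_cast g3
    nlinarith
  · have := upper_prob (V := Fin n) d D hD hA hB hC' x (by simpa using g2) (by simpa using g3)
      (by
        rw [Fintype.card_fin]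
        have h1 : 1 ≤ cc d * D := Nat.mul_pos (cc_pos d) (by omega)
        calc 16 * QQ d ≤ n := g4
          _ = 1 * n := by ring
          _ ≤ cc d * D * n := Nat.mul_le_mul_right _ h1)
      (by simpa using g5)
    rw [Fintype.card_fin] at this
    exact le_trans this g1.le

end Pool.Agent.Recon
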