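import Pool.Agent.Recon.Graph

open Finset SimpleGraph

set_option linter.unusedSectionVars false

namespace Pool.Agent.Recon

variable {V : Type*} [Fintype V] [DecidableEq V]

lemma chain_prob {p : ℝ} (hp0 : 0 ≤ p) (hp1 : p ≤ 1) (l : ℕ) (s : Fin (l + 1) → V)
    (hs : Function.Injective s) :
    Pr (bw p) (fun ω : Sym2 V → Bool => ∀ i : Fin l, ω s(s i.castSucc, s i.succ) = true)
      ≤ p ^ l := by
  classical
  have hinj : Set.InjOn (fun i : Fin l => s(s i.castSucc, s i.succ))
      ((Finset.univ : Finset (Fin l)) : Set (Fin l)) := by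
    intro i _ j _ h
    simp only [Sym2.eq_iff] at h
    rcases h with ⟨h1, _⟩ | ⟨h1, h2⟩
    · exact Fin.castSucc_injective l (hs h1)
    · exfalso
      have e1 := congrArg Fin.val (hs h1)
      have e2 := congrArg Fin.val (hs h2)
      simp at e1 e2
      omega
  have h := Ex_prod_inj (α := Sym2 V) (bw_sum p) (Finset.univ : Finset (Fin l))
    (fun i : Fin l => s(s i.castSucc, s i.succ)) hinj (fun _ b => if b then (1 : ℝ) else 0)
  have h2 : ∀ i ∈ (Finset.univ : Finset (Fin l)), ∑ b, bw p b * (if b = true then (1 : ℝ) else 0)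
      = p := by
    intro i _
    simp [bw]
  rw [Finset.prod_congr rfl h2, Finset.prod_const, Finset.card_univ, Fintype.card_fin] at h
  rw [← h]
  apply Pr_le_Ex (bw_nonneg hp0 hp1)
  · intro ω
    apply Finset.prod_nonneg
    intro i _
    split_ifs <;> norm_num
  · intro ω hω
    rw [Finset.prod_eq_one]
    intro i _
    rw [if_pos (hω i)]

lemma reach_chain (ω : Sym2 V → Bool) {u v : V} (h : (gr ω).Reachable u v) :
    ∃ l < Fintype.card V, ∃ s : Fin (l + 1) → V, Function.Injective s ∧
      (∀ i : Fin l, ω s(s i.castSucc, s i.succ) = true) ∧ s 0 = u ∧ s (Fin.last l) = v := by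
  classical
  obtain ⟨w⟩ := h
  set P := w.toPath with hP
  refine ⟨P.1.length, P.2.length_lt, fun i => P.1.getVert i, ?_, ?_, ?_, ?_⟩
  · intro i j hij
    have := P.2.getVert_injOn (by simp; omega) (by simp; omega) hij
    exact Fin.ext this
  · intro i
    have := P.1.adj_getVert_succ (i := i) i.2
    exact this.2
  · simp
  · simp

/-- Expected number of pairs joined by a path. -/
lemma reach_bound {p : ℝ} (hp0 : 0 ≤ p) (hp1 : p ≤ 1) (hp : (Fintype.card V : ℝ) * p ≤ 1 / 2)
    (S : (Sym2 V → Bool) → Prop) (L : ℝ) (hL : 0 < L)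
    (hS : ∀ ω, S ω → ∃ U : Finset V, L ≤ (U.card : ℝ) ∧ ∀ u ∈ U, ∀ v ∈ U, (gr ω).Reachable u v) :
    Pr (bw p) S ≤ 2 * Fintype.card V / L ^ 2 := by
  classical
  set n := Fintype.card V with hn
  let T : (Sym2 V → Bool) → Finset (Σ l : ℕ, Fin (l + 1) → V) := fun ω =>
    (Finset.range n).sigma (fun l => Finset.univ.filter (fun s : Fin (l + 1) → V =>
      Function.Injective s ∧ ∀ i : Fin l, ω s(s i.castSucc, s i.succ) = true))
  have hT : ∀ ω, ((T ω).card : ℝ) = ∑ l ∈ Finset.range n,
      ∑ s ∈ (Finset.univ.filter (fun s : Fin (l + 1) → V => Function.Injective s)),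
        (if ∀ i : Fin l, ω s(s i.castSucc, s i.succ) = true then (1 : ℝ) else 0) := by
    intro ω
    rw [Finset.card_sigma]
    push_cast
    apply Finset.sum_congr rfl
    intro l _
    rw [← Finset.filter_filter, Finset.card_filter]
    push_cast
    rfl
  have h1 : Pr (bw p) S ≤ Ex (bw p) (fun ω : Sym2 V → Bool => (1 / L ^ 2) * ((T ω).card : ℝ)) := by
    apply Pr_le_Ex (bw_nonneg hp0 hp1)
    · intro ω; positivity
    · intro ω hω
      obtain ⟨U, hU1, hU2⟩ := hS ω hω
      have hsub : U ×ˢ U ⊆ (T ω).image (fun t : (Σ l : ℕ, Fin (l + 1) → V) =>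
          (t.2 0, t.2 (Fin.last t.1))) := by
        rintro ⟨u, v⟩ huv
        rw [Finset.mem_product] at huv
        obtain ⟨l, hl, s, hs1, hs2, hs3, hs4⟩ := reach_chain ω (hU2 u huv.1 v huv.2)
        rw [Finset.mem_image]
        refine ⟨⟨l, s⟩, ?_, ?_⟩
        · rw [Finset.mem_sigma]
          refine ⟨Finset.mem_range.mpr hl, ?_⟩
          rw [Finset.mem_filter]
          exact ⟨Finset.mem_univ _, hs1, hs2⟩
        · rw [Prod.mk.injEq]; exact ⟨hs3, hs4⟩
      have hcard := le_trans (Finset.card_le_card hsub) Finset.card_image_le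
      rw [Finset.card_product] at hcard
      have hcard' : (U.card : ℝ) * U.card ≤ (T ω).card := by exact_mod_cast hcard
      rw [one_div, inv_mul_eq_div, le_div_iff₀ (by positivity), one_mul, sq]
      calc L * L ≤ U.card * U.card := mul_le_mul hU1 hU1 hL.le (by positivity)
        _ ≤ _ := hcard'
  refine le_trans h1 ?_
  rw [Ex_const_mul]
  simp_rw [hT]
  rw [Ex_sum]
  have h2 : ∀ l ∈ Finset.range n, Ex (bw p) (fun ω : Sym2 V → Bool =>
      ∑ s ∈ (Finset.univ.filter (fun s : Fin (l + 1) → V => Function.Injective s)),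
        (if ∀ i : Fin l, ω s(s i.castSucc, s i.succ) = true then (1 : ℝ) else 0))
      ≤ n * (1 / 2) ^ l := by
    intro l _
    rw [Ex_sum]
    have h3 : ∀ s ∈ (Finset.univ.filter (fun s : Fin (l + 1) → V => Function.Injective s)),
        Ex (bw p) (fun ω : Sym2 V → Bool =>
          (if ∀ i : Fin l, ω s(s i.castSucc, s i.succ) = true then (1 : ℝ) else 0)) ≤ p ^ l := by
      intro s hs
      rw [Finset.mem_filter] at hs
      have := chain_prob hp0 hp1 l s hs.2
      rwa [Pr_eq] at this
    refine le_trans (Finset.sum_le_card_nsmul _ _ _ h3) ?_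
    rw [nsmul_eq_mul]
    have h4 : ((Finset.univ.filter (fun s : Fin (l + 1) → V => Function.Injective s)).card : ℝ)
        ≤ (n : ℝ) ^ (l + 1) := by
      have : (Finset.univ.filter (fun s : Fin (l + 1) → V => Function.Injective s)).card
          ≤ n ^ (l + 1) := by
        refine le_trans (Finset.card_filter_le _ _) ?_
        rw [Finset.card_univ, Fintype.card_fun, Fintype.card_fin]
      exact_mod_cast this
    calc ((Finset.univ.filter (fun s : Fin (l + 1) → V => Function.Injective s)).card : ℝ) * p ^ l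
        ≤ (n : ℝ) ^ (l + 1) * p ^ l := mul_le_mul_of_nonneg_right h4 (by positivity)
      _ = n * ((n : ℝ) * p) ^ l := by rw [mul_pow]; ring
      _ ≤ n * (1 / 2) ^ l := by
          apply mul_le_mul_of_nonneg_left _ (by positivity)
          exact pow_le_pow_left₀ (by positivity) hp _
  have h5 := Finset.sum_le_sum h2
  rw [← Finset.mul_sum] at h5
  have h6 : ∑ l ∈ Finset.range n, (1 / 2 : ℝ) ^ l ≤ 2 := by
    have h7 : (∑ j ∈ Finset.range n, (1 / 2 : ℝ) ^ j) * (1 - 1 / 2) = 1 - (1 / 2 : ℝ) ^ n := by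
      have := geom_sum_mul_neg (1 / 2 : ℝ) n
      linarith
    have h8 : (0 : ℝ) < (1 / 2) ^ n := by positivity
    linarith
  have h9 : (n : ℝ) * ∑ l ∈ Finset.range n, (1 / 2 : ℝ) ^ l ≤ n * 2 :=
    mul_le_mul_of_nonneg_left h6 (by positivity)
  calc 1 / L ^ 2 * _ ≤ 1 / L ^ 2 * (n * 2) :=
        mul_le_mul_of_nonneg_left (le_trans h5 h9) (by positivity)
    _ = 2 * n / L ^ 2 := by ring

end Pool.Agent.Recon
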