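import Mathlib

open Finset

set_option linter.unusedSectionVars false

namespace Pool.Agent.Recon

variable {α β γ : Type*} [Fintype α] [DecidableEq α] [Fintype β] [DecidableEq β]
  [Fintype γ] [DecidableEq γ]

lemma sum_prod (f : α → β → ℝ) : ∑ ω : α → β, ∏ a, f a (ω a) = ∏ a, ∑ b, f a b := by
  rw [Finset.prod_univ_sum]
  simp [Fintype.piFinset_univ]

/-- product weight of an outcome -/
def wt (w : β → ℝ) (ω : α → β) : ℝ := ∏ a, w (ω a)

/-- expectation with respect to the product weight -/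
def Ex (w : β → ℝ) (g : (α → β) → ℝ) : ℝ := ∑ ω, wt w ω * g ω

open Classical in
/-- probability with respect to the product weight -/
noncomputable def Pr (w : β → ℝ) (S : (α → β) → Prop) : ℝ :=
  Ex w (fun ω => if S ω then 1 else 0)

lemma Pr_eq (w : β → ℝ) (S : (α → β) → Prop) [DecidablePred S] :
    Pr w S = Ex w (fun ω => if S ω then 1 else 0) := by
  unfold Pr
  congr 1
  funext ω
  by_cases h : S ω <;> simp [h]

lemma wt_nonneg {w : β → ℝ} (hw : ∀ b, 0 ≤ w b) (ω : α → β) : 0 ≤ wt w ω :=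
  Finset.prod_nonneg (fun _ _ => hw _)

lemma Ex_mono {w : β → ℝ} (hw : ∀ b, 0 ≤ w b) {g h : (α → β) → ℝ} (hgh : ∀ ω, g ω ≤ h ω) :
    Ex w g ≤ Ex w h :=
  Finset.sum_le_sum (fun ω _ => mul_le_mul_of_nonneg_left (hgh ω) (wt_nonneg hw ω))

lemma Ex_prod (w : β → ℝ) (g : α → β → ℝ) :
    Ex w (fun ω => ∏ a, g a (ω a)) = ∏ a, ∑ b, w b * g a b := by
  unfold Ex wt
  simp_rw [← Finset.prod_mul_distrib]
  exact sum_prod (fun a b => w b * g a b)

lemma Ex_const_mul (w : β → ℝ) (c : ℝ) (g : (α → β) → ℝ) :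
    Ex w (fun ω => c * g ω) = c * Ex w g := by
  unfold Ex
  rw [Finset.mul_sum]
  exact Finset.sum_congr rfl (fun ω _ => by ring)

lemma Ex_add (w : β → ℝ) (g h : (α → β) → ℝ) :
    Ex w (fun ω => g ω + h ω) = Ex w g + Ex w h := by
  unfold Ex
  rw [← Finset.sum_add_distrib]
  exact Finset.sum_congr rfl (fun ω _ => by ring)

lemma Ex_sum {ι : Type*} (s : Finset ι) (w : β → ℝ) (g : ι → (α → β) → ℝ) :
    Ex w (fun ω => ∑ i ∈ s, g i ω) = ∑ i ∈ s, Ex w (g i) := by
  unfold Ex
  rw [Finset.sum_comm]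
  exact Finset.sum_congr rfl (fun ω _ => by rw [Finset.mul_sum])

lemma Ex_one {w : β → ℝ} (hw1 : ∑ b, w b = 1) : Ex w (fun _ : α → β => (1 : ℝ)) = 1 := by
  have := Ex_prod (α := α) w (fun _ _ => 1)
  simp only [Finset.prod_const_one, mul_one, hw1] at this
  exact this

lemma Pr_le_Ex {w : β → ℝ} (hw : ∀ b, 0 ≤ w b) {S : (α → β) → Prop} {g : (α → β) → ℝ}
    (h0 : ∀ ω, 0 ≤ g ω) (h1 : ∀ ω, S ω → 1 ≤ g ω) : Pr w S ≤ Ex w g := by
  classical
  apply Ex_mono hw
  intro ω
  split_ifs with h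
  · exact h1 ω h
  · exact h0 ω

lemma Pr_nonneg {w : β → ℝ} (hw : ∀ b, 0 ≤ w b) (S : (α → β) → Prop) : 0 ≤ Pr w S := by
  classical
  unfold Pr Ex
  apply Finset.sum_nonneg
  intro ω _
  apply mul_nonneg (wt_nonneg hw ω)
  dsimp only
  split_ifs <;> norm_num

lemma Pr_mono {w : β → ℝ} (hw : ∀ b, 0 ≤ w b) {S T : (α → β) → Prop} (h : ∀ ω, S ω → T ω) :
    Pr w S ≤ Pr w T := by
  classical
  apply Ex_mono hw
  intro ω
  split_ifs with h1 h2
  · exact le_refl _
  · exact absurd (h ω h1) h2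
  · norm_num
  · exact le_refl _

lemma Pr_or_le {w : β → ℝ} (hw : ∀ b, 0 ≤ w b) (S T : (α → β) → Prop) :
    Pr w (fun ω => S ω ∨ T ω) ≤ Pr w S + Pr w T := by
  classical
  unfold Pr
  rw [← Ex_add]
  apply Ex_mono hw
  intro ω
  by_cases h1 : S ω <;> by_cases h2 : T ω <;> simp [h1, h2]

lemma Pr_not {w : β → ℝ} (hw1 : ∑ b, w b = 1) (S : (α → β) → Prop) :
    Pr w (fun ω => ¬ S ω) = 1 - Pr w S := by
  classical
  have h := Ex_one (α := α) hw1
  have h2 : Ex w (fun _ : α → β => (1 : ℝ)) = Pr w S + Pr w (fun ω => ¬ S ω) := by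
    unfold Pr
    rw [← Ex_add]
    congr 1
    funext ω
    by_cases h1 : S ω <;> simp [h1]
  linarith

/-- Push-forward of the product weight under a coordinatewise map. -/
lemma sum_fiber (w : β → ℝ) (φ : β → γ) (g : α → β → ℝ) (ν : α → γ) :
    ∑ ω : α → β, (if φ ∘ ω = ν then ∏ a, (w (ω a) * g a (ω a)) else 0)
      = ∏ a, ∑ b, if φ b = ν a then w b * g a b else 0 := by
  rw [← sum_prod]
  apply Finset.sum_congr rfl
  intro ω _
  by_cases h : φ ∘ ω = ν
  · rw [if_pos h]
    apply Finset.prod_congr rfl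
    intro a _
    have : φ (ω a) = ν a := congrFun h a
    rw [if_pos this]
  · rw [if_neg h]
    have : ∃ a, φ (ω a) ≠ ν a := by
      by_contra hcon
      push Not at hcon
      exact h (funext hcon)
    obtain ⟨a, ha⟩ := this
    symm
    apply Finset.prod_eq_zero (Finset.mem_univ a)
    rw [if_neg ha]

lemma Ex_push (w : β → ℝ) (φ : β → γ) (g : (α → γ) → ℝ) :
    Ex w (fun ω => g (φ ∘ ω)) = Ex (fun c => ∑ b, if φ b = c then w b else 0) g := by
  unfold Ex
  have key : ∀ ν : α → γ, wt (fun c => ∑ b, if φ b = c then w b else 0) ν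
      = ∑ ω : α → β, (if φ ∘ ω = ν then wt w ω else 0) := by
    intro ν
    have := sum_fiber w φ (fun _ _ => (1 : ℝ)) ν
    simp only [mul_one] at this
    unfold wt
    rw [← this]
  simp_rw [key, Finset.sum_mul]
  rw [Finset.sum_comm]
  apply Finset.sum_congr rfl
  intro ω _
  simp [Finset.sum_ite_eq]

lemma Pr_push (w : β → ℝ) (φ : β → γ) (S : (α → γ) → Prop) :
    Pr w (fun ω => S (φ ∘ ω)) = Pr (fun c => ∑ b, if φ b = c then w b else 0) S := by
  classical
  unfold Pr
  exact Ex_push w φ (fun ν => if S ν then 1 else 0)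

/-- Independence along an injective family of coordinates. -/
lemma Ex_prod_inj {ι : Type*} {w : β → ℝ} (hw1 : ∑ b, w b = 1) (s : Finset ι)
    (f : ι → α) (hf : Set.InjOn f s) (g : ι → β → ℝ) :
    Ex w (fun ω : α → β => ∏ i ∈ s, g i (ω (f i))) = ∏ i ∈ s, ∑ b, w b * g i b := by
  classical
  -- coordinate functions
  let g' : α → β → ℝ := fun a b => ∏ i ∈ s with f i = a, g i b
  have h1 : ∀ ω : α → β, ∏ i ∈ s, g i (ω (f i)) = ∏ a, g' a (ω a) := by
    intro ω
    rw [← Finset.prod_fiberwise_of_maps_to (s := s) (t := Finset.univ) (g := f)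
      (fun _ _ => Finset.mem_univ _)]
    apply Finset.prod_congr rfl
    intro a _
    apply Finset.prod_congr rfl
    intro i hi
    rw [(Finset.mem_filter.mp hi).2]
  simp_rw [h1]
  rw [Ex_prod]
  rw [← Finset.prod_fiberwise_of_maps_to (s := s) (t := Finset.univ) (g := f)
      (fun _ _ => Finset.mem_univ _) (fun i => ∑ b, w b * g i b)]
  apply Finset.prod_congr rfl
  intro a _
  by_cases ha : ∃ i ∈ s, f i = a
  · obtain ⟨i, hi, hia⟩ := ha
    have hs : s.filter (fun j => f j = a) = {i} := by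
      ext j
      simp only [Finset.mem_filter, Finset.mem_singleton]
      constructor
      · rintro ⟨hj, hja⟩
        exact hf hj hi (hja.trans hia.symm)
      · rintro rfl
        exact ⟨hi, hia⟩
    simp only [g', hs, Finset.prod_singleton]
  · have hs : s.filter (fun j => f j = a) = ∅ := by
      ext j
      simp only [Finset.mem_filter, Finset.notMem_empty, iff_false, not_and]
      intro hj hja
      exact ha ⟨j, hj, hja⟩
    simp only [g', hs, Finset.prod_empty, mul_one, hw1]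

end Pool.Agent.Recon
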