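import Pool.Agent.Recon.Flat
import Pool.Agent.Recon.Degree

open Finset Module

set_option linter.unusedSectionVars false

namespace Pool.Agent.Recon

variable {V : Type*} [Fintype V] [DecidableEq V]

lemma sum_pow_card_le {q : ℝ} (hq0 : 0 ≤ q) (Js : Finset (Finset V)) (k : ℕ)
    (hJs : ∀ J ∈ Js, J.card ≤ k) {C : ℝ} (hC : 1 ≤ C) (hqC : (Fintype.card V : ℝ) * q ≤ C) :
    ∑ J ∈ Js, q ^ J.card ≤ (k + 1) * C ^ k := by
  classical
  have h1 : ∑ J ∈ Js, q ^ J.card
      ≤ ∑ j ∈ Finset.range (k + 1), ∑ J ∈ Finset.powersetCard j (Finset.univ : Finset V),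
        q ^ J.card := by
    rw [← Finset.sum_biUnion]
    · apply Finset.sum_le_sum_of_subset_of_nonneg
      · intro J hJ
        rw [Finset.mem_biUnion]
        refine ⟨J.card, ?_, ?_⟩
        · rw [Finset.mem_range]; have := hJs J hJ; omega
        · simp [Finset.mem_powersetCard]
      · intro J _ _; positivity
    · intro i _ j _ hij
      rw [Function.onFun, Finset.disjoint_left]
      intro J h1 h2
      rw [Finset.mem_powersetCard] at h1 h2
      exact hij (h1.2.symm.trans h2.2)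
  refine le_trans h1 ?_
  have h2 : ∀ j ∈ Finset.range (k + 1), ∑ J ∈ Finset.powersetCard j (Finset.univ : Finset V),
        q ^ J.card ≤ C ^ k := by
    intro j hj
    rw [Finset.mem_range] at hj
    have h3 : ∀ J ∈ Finset.powersetCard j (Finset.univ : Finset V), q ^ J.card = q ^ j := by
      intro J hJ
      rw [(Finset.mem_powersetCard.mp hJ).2]
    rw [Finset.sum_congr rfl h3, Finset.sum_const, Finset.card_powersetCard, Finset.card_univ,
      nsmul_eq_mul]
    have h4 : (((Fintype.card V).choose j : ℕ) : ℝ) ≤ (Fintype.card V : ℝ) ^ j := by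
      exact_mod_cast Nat.choose_le_pow _ _
    calc (((Fintype.card V).choose j : ℕ) : ℝ) * q ^ j ≤ (Fintype.card V : ℝ) ^ j * q ^ j :=
          mul_le_mul_of_nonneg_right h4 (by positivity)
      _ = ((Fintype.card V : ℝ) * q) ^ j := by rw [mul_pow]
      _ ≤ C ^ j := pow_le_pow_left₀ (by positivity) hqC _
      _ ≤ C ^ k := pow_le_pow_right₀ hC (by omega)
  refine le_trans (Finset.sum_le_sum h2) ?_
  rw [Finset.sum_const, Finset.card_range, nsmul_eq_mul]
  push_cast
  exact le_refl _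

lemma one_sub_pow_le {y : ℝ} (_hy0 : 0 ≤ y) (hy1 : y ≤ 1) (m : ℕ) :
    (1 - y) ^ m ≤ Real.exp (-(y * m)) := by
  have h1 : 1 - y ≤ Real.exp (-y) := by
    have := Real.add_one_le_exp (-y)
    linarith
  calc (1 - y) ^ m ≤ (Real.exp (-y)) ^ m := pow_le_pow_left₀ (by linarith) h1 _
    _ = Real.exp (-(y * m)) := by
      rw [← Real.exp_nat_mul]; congr 1; ring

lemma one_add_pow_le {y : ℝ} (hy0 : 0 ≤ y) (m : ℕ) :
    (1 + y) ^ m ≤ Real.exp (y * m) := by
  have h1 : 1 + y ≤ Real.exp y := by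
    have := Real.add_one_le_exp y
    linarith
  calc (1 + y) ^ m ≤ (Real.exp y) ^ m := pow_le_pow_left₀ (by linarith) h1 _
    _ = Real.exp (y * m) := by
      rw [← Real.exp_nat_mul]; congr 1; ring

/-- the base constant -/
def cc (d : ℕ) : ℕ := 32 * 8 ^ d
/-- the bad pair constant -/
def QQ (d : ℕ) : ℕ := 96 * 8 ^ d * cc d * (d + 1)

lemma cc_pos (d : ℕ) : 0 < cc d := by unfold cc; positivity
lemma QQ_pos (d : ℕ) : 0 < QQ d := by unfold QQ; have := cc_pos d; positivity

/-- Bound for the double-sampling event. -/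
lemma P1 (d D : ℕ) (hD : 0 < D)
    (hC' : (384 * (QQ d : ℝ) + 1) ^ d * Real.exp (-((cc d : ℝ) * D / (64 * QQ d))) ≤ 1 / 2)
    (x : V → EuclideanSpace ℝ (Fin d)) (V' : Finset V)
    (hn1 : 2 * QQ d ≤ Fintype.card V) (hn2 : 2 * (cc d * D) ≤ Fintype.card V)
    (hn3 : 16 * QQ d ≤ cc d * D * Fintype.card V) :
    Pr (bw ((cc d * D : ℝ) / Fintype.card V))
      (fun ω : Sym2 V → Bool => ∃ B ∈ bads x V' ((Fintype.card V) ^ 2 / QQ d),
        ∀ e ∈ B, ω e = false)
      ≤ Real.exp (-((cc d : ℝ) * D * Fintype.card V / (8 * QQ d))) + (1 / 2) ^ (Fintype.card V) := by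
  classical
  set n := Fintype.card V with hn
  set Q : ℝ := (QQ d : ℝ) with hQ
  set C : ℝ := (cc d : ℝ) * D with hC
  have hQ0 : 0 < Q := by rw [hQ]; exact_mod_cast QQ_pos d
  have hQ1 : 1 ≤ Q := by rw [hQ]; exact_mod_cast QQ_pos d
  have hC0 : 0 < C := by
    rw [hC]
    have h1 : (0 : ℝ) < cc d := by exact_mod_cast cc_pos d
    have h2 : (0 : ℝ) < D := by exact_mod_cast hD
    positivity
  have hnpos : 0 < n := by have := QQ_pos d; omega
  have hn0 : (0 : ℝ) < n := by exact_mod_cast hnpos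
  have hn2' : 2 * C ≤ n := by rw [hC]; exact_mod_cast hn2
  have hn3' : 16 * Q ≤ C * n := by rw [hC, hQ]; exact_mod_cast hn3
  have hn1' : 2 * Q ≤ n := by rw [hQ]; exact_mod_cast hn1
  set q : ℝ := C / n with hq
  have hq0 : 0 ≤ q := by positivity
  have hq1 : q ≤ 1 / 2 := by
    rw [hq, div_le_iff₀ hn0]; linarith
  set X : ℝ := C * n / Q with hX
  have hX0 : 0 < X := by positivity
  have hX16 : 16 ≤ X := by rw [hX, le_div_iff₀ hQ0]; exact hn3'
  set t : ℕ := ⌊X / 8⌋₊ with ht
  have ht1 : (t : ℝ) ≤ X / 8 := Nat.floor_le (by positivity)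
  have ht2 : X / 16 ≤ t := by
    have := Nat.lt_floor_add_one (X / 8)
    rw [← ht] at this
    linarith
  set M : ℕ := n ^ 2 / QQ d with hM
  have hM1 : (n : ℝ) ^ 2 / (2 * Q) ≤ M := by
    have h1 : n ^ 2 < (M + 1) * QQ d := by
      have := Nat.lt_mul_div_succ (n ^ 2) (QQ_pos d)
      rw [← hM] at this
      linarith
    have h2 : (n : ℝ) ^ 2 < (M + 1) * Q := by rw [hQ]; exact_mod_cast h1
    have h3 : 2 * Q ≤ (n : ℝ) ^ 2 := by
      have : (n : ℝ) ≤ (n : ℝ) ^ 2 := by
        have : (1 : ℝ) ≤ n := by exact_mod_cast hnpos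
        nlinarith
      linarith
    rw [div_le_iff₀ (by positivity)]
    nlinarith
  have hqM : X / 2 ≤ q * M := by
    calc X / 2 = q * ((n : ℝ) ^ 2 / (2 * Q)) := by
          rw [hX, hq]; field_simp
      _ ≤ q * M := mul_le_mul_of_nonneg_left hM1 hq0
  set lam : ℝ := 1 / (384 * Q) with hlam
  have hlam0 : 0 < lam := by positivity
  have hlam1 : lam ≤ 1 := by
    rw [hlam, div_le_one (by positivity)]
    linarith
  have hnet := eps_net hq0 hq1 (bads x V' M) M t (by
      intro B hB
      unfold bads at hB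
      rw [Finset.mem_filter] at hB
      exact hB.2.1) (((1 + lam) / lam) ^ (n * d)) ((1 + lam) ^ 2)
    (fun A => trace_bound x V' M A lam hlam0)
  refine le_trans hnet ?_
  have hlog : Real.log 2 ≤ 1 := by
    have := Real.log_two_lt_d9
    linarith
  have hlog2 : 1 / 2 ≤ Real.log 2 := by
    have := Real.log_two_gt_d9
    linarith
  -- first term
  have hT1 : (2 : ℝ) ^ t * (1 - q / 2) ^ M ≤ Real.exp (-(C * n / (8 * Q))) := by
    have h1 : (2 : ℝ) ^ t = Real.exp (t * Real.log 2) := by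
      rw [mul_comm, Real.exp_mul, Real.exp_log (by norm_num), Real.rpow_natCast]
    have h2 := one_sub_pow_le (y := q / 2) (by positivity) (by linarith) M
    calc (2 : ℝ) ^ t * (1 - q / 2) ^ M
        ≤ Real.exp (t * Real.log 2) * Real.exp (-(q / 2 * M)) := by
          rw [h1]
          exact mul_le_mul_of_nonneg_left h2 (Real.exp_nonneg _)
      _ = Real.exp (t * Real.log 2 + -(q / 2 * M)) := by rw [Real.exp_add]
      _ ≤ Real.exp (-(C * n / (8 * Q))) := by
          apply Real.exp_le_exp.mpr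
          have h3 : (t : ℝ) * Real.log 2 ≤ X / 8 := by
            calc (t : ℝ) * Real.log 2 ≤ t * 1 := by
                  apply mul_le_mul_of_nonneg_left hlog (by positivity)
              _ ≤ X / 8 := by linarith
          have h4 : C * n / (8 * Q) = X / 8 := by rw [hX]; field_simp
          rw [h4]
          linarith
  -- second term
  have hT2 : (1 / 2 : ℝ) ^ t * ((1 + lam) / lam) ^ (n * d) *
      (1 + 2 * q * ((1 + lam) ^ 2 - 1)) ^ (Fintype.card (Sym2 V)) ≤ (1 / 2) ^ n := by
    have h1 : (1 / 2 : ℝ) ^ t = Real.exp (-(t * Real.log 2)) := by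
      rw [Real.exp_neg, mul_comm, Real.exp_mul, Real.exp_log (by norm_num), Real.rpow_natCast,
        one_div, inv_pow]
    have h2 : (1 / 2 : ℝ) ^ t ≤ Real.exp (-(X / 32)) := by
      rw [h1]
      apply Real.exp_le_exp.mpr
      have : X / 32 ≤ t * Real.log 2 := by
        calc X / 32 = X / 16 * (1 / 2) := by ring
          _ ≤ t * Real.log 2 := by
              apply mul_le_mul ht2 hlog2 (by norm_num) (by positivity)
      linarith
    have h3 : Fintype.card (Sym2 V) ≤ n ^ 2 := by
      rw [Sym2.card, ← hn, Nat.choose_two_right]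
      apply Nat.div_le_of_le_mul
      have : n * (n + 1) ≤ 2 * n ^ 2 := by nlinarith [hnpos]
      calc (n + 1) * (n + 1 - 1) = n * (n + 1) := by rw [Nat.add_sub_cancel]; ring
        _ ≤ 2 * n ^ 2 := this
    have hr : 0 ≤ (1 + lam) ^ 2 - 1 := by nlinarith
    have h4 : (1 + 2 * q * ((1 + lam) ^ 2 - 1)) ^ (Fintype.card (Sym2 V))
        ≤ Real.exp (X / 64) := by
      calc (1 + 2 * q * ((1 + lam) ^ 2 - 1)) ^ (Fintype.card (Sym2 V))
          ≤ (1 + 2 * q * ((1 + lam) ^ 2 - 1)) ^ (n ^ 2) := by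
            apply pow_le_pow_right₀ _ h3
            have : 0 ≤ 2 * q * ((1 + lam) ^ 2 - 1) := by positivity
            linarith
        _ ≤ Real.exp (2 * q * ((1 + lam) ^ 2 - 1) * (n ^ 2 : ℕ)) := by
            apply one_add_pow_le
            positivity
        _ ≤ Real.exp (X / 64) := by
            apply Real.exp_le_exp.mpr
            have h5 : (1 + lam) ^ 2 - 1 ≤ 3 * lam := by nlinarith
            have h6 : 2 * q * ((1 + lam) ^ 2 - 1) * (n ^ 2 : ℕ)
                ≤ 2 * q * (3 * lam) * (n ^ 2 : ℕ) := by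
              apply mul_le_mul_of_nonneg_right _ (by positivity)
              apply mul_le_mul_of_nonneg_left h5 (by positivity)
            have h7 : 2 * q * (3 * lam) * ((n ^ 2 : ℕ) : ℝ) = X / 64 := by
              rw [hq, hlam, hX]
              push_cast
              field_simp
              norm_num
            linarith
    have h5 : (1 + lam) / lam = 384 * Q + 1 := by
      rw [hlam]
      field_simp
    rw [h5]
    have h6 : (384 * Q + 1) ^ (n * d) * Real.exp (-(X / 64)) ≤ (1 / 2) ^ n := by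
      have h7 : X / 64 = n * (C / (64 * Q)) := by rw [hX]; field_simp
      have h8 : Real.exp (-(X / 64)) = (Real.exp (-(C / (64 * Q)))) ^ n := by
        rw [← Real.exp_nat_mul, h7]
        congr 1
        ring
      rw [h8, mul_comm n d, pow_mul, ← mul_pow]
      apply pow_le_pow_left₀ _ hC'
      positivity
    calc (1 / 2 : ℝ) ^ t * (384 * Q + 1) ^ (n * d) *
        (1 + 2 * q * ((1 + lam) ^ 2 - 1)) ^ (Fintype.card (Sym2 V))
        ≤ Real.exp (-(X / 32)) * (384 * Q + 1) ^ (n * d) * Real.exp (X / 64) := by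
          apply mul_le_mul _ h4 _ (by positivity)
          · exact mul_le_mul_of_nonneg_right h2 (by positivity)
          · have : 0 ≤ 2 * q * ((1 + lam) ^ 2 - 1) := by positivity
            positivity
      _ = (384 * Q + 1) ^ (n * d) * (Real.exp (-(X / 32)) * Real.exp (X / 64)) := by ring
      _ = (384 * Q + 1) ^ (n * d) * Real.exp (-(X / 64)) := by
          rw [← Real.exp_add]
          congr 2
          ring
      _ ≤ (1 / 2) ^ n := h6
  exact add_le_add hT1 hT2

/-- Bound for the degree event. -/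
lemma P3 (d D : ℕ) (hD : 0 < D)
    (hB : 48 * Real.exp 1 * cc d * ((d + 2) * ((cc d : ℝ) * D) ^ (d + 1) * 2 ^ (4 * D) *
      Real.exp (-(8 * D))) ≤ 1 / 2)
    (V' : Finset V) (hull : Finset V → Finset V) (Js : Finset (Finset V))
    (hJ : ∀ J ∈ Js, J ⊆ hull J) (hJc : ∀ J ∈ Js, J.card ≤ d + 1)
    (hV' : Fintype.card V ≤ 8 ^ d * V'.card)
    (hhull : ∀ J ∈ Js, 8 * (V' ∩ hull J).card ≤ V'.card)
    (hn1 : 24 * cc d ≤ Fintype.card V) (hn2 : 2 * (cc d * D) ≤ Fintype.card V) :
    Pr (bw ((cc d * D : ℝ) / Fintype.card V))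
      (fun ω : Sym2 V → Bool => ∃ Z ⊆ V', Z.card = Fintype.card V / (24 * cc d) ∧
        ∀ v ∈ Z, ∃ J ∈ Js, J ⊆ V' \ Z ∧ (∀ u ∈ J, ω s(v, u) = true) ∧
        (((V' \ Z) \ hull J).filter (fun u => ω s(v, u) = true)).card < 4 * D)
      ≤ (1 / 2) ^ (Fintype.card V / (24 * cc d)) := by
  classical
  set n := Fintype.card V with hn
  set c : ℝ := (cc d : ℝ) with hc
  set C : ℝ := c * D with hC
  have hc1 : 1 ≤ c := by rw [hc]; exact_mod_cast cc_pos d
  have hD1 : (1 : ℝ) ≤ D := by exact_mod_cast hD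
  have hC1 : 1 ≤ C := by rw [hC]; nlinarith
  have hnpos : 0 < n := by have := cc_pos d; omega
  have hn0 : (0 : ℝ) < n := by exact_mod_cast hnpos
  have hn2' : 2 * C ≤ n := by rw [hC, hc]; exact_mod_cast hn2
  set q : ℝ := C / n with hq
  have hq0 : 0 ≤ q := by positivity
  have hq1 : q ≤ 1 / 2 := by
    rw [hq, div_le_iff₀ hn0]; linarith
  set z := n / (24 * cc d) with hz
  set s := V'.card with hs
  have hz1 : 24 * cc d * z ≤ n := Nat.mul_div_le _ _
  have hz2 : 768 * z ≤ s := by
    have h1 : 8 ^ d * (768 * z) ≤ 8 ^ d * s := by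
      calc 8 ^ d * (768 * z) = 24 * cc d * z := by unfold cc; ring
        _ ≤ n := hz1
        _ ≤ 8 ^ d * s := hV'
    exact le_of_mul_le_mul_left h1 (by positivity)
  have hs0 : 0 < s := by
    by_contra hcon
    have : s = 0 := by omega
    rw [this] at hV'
    omega
  set m := s - s / 2 with hm
  have hm2 : s ≤ 2 * m := by omega
  have hun := deg_union hq0 (by linarith : q ≤ 1) V' hull Js hJ m (4 * D) z (by
    intro J hJJ Z hZ hZc
    have h1 : ((V' \ Z) \ hull J).card + (V' ∩ hull J).card + Z.card ≥ s := by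
      have hsub : V' ⊆ ((V' \ Z) \ hull J) ∪ ((V' ∩ hull J) ∪ Z) := by
        intro v hv
        simp only [Finset.mem_union, Finset.mem_sdiff, Finset.mem_inter, hv, true_and]
        tauto
      have h2 := Finset.card_le_card hsub
      have h3 := Finset.card_union_le ((V' \ Z) \ hull J) ((V' ∩ hull J) ∪ Z)
      have h4 := Finset.card_union_le (V' ∩ hull J) Z
      omega
    have h2 := hhull J hJJ
    omega)
  refine le_trans hun ?_
  -- the local factor
  have hloc : ∑ J ∈ Js, q ^ J.card * 2 ^ (4 * D) * (1 - q / 2) ^ m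
      ≤ (d + 2) * (c * D) ^ (d + 1) * 2 ^ (4 * D) * Real.exp (-(8 * D)) := by
    have h1 : ∑ J ∈ Js, q ^ J.card * 2 ^ (4 * D) * (1 - q / 2) ^ m
        = (∑ J ∈ Js, q ^ J.card) * (2 ^ (4 * D) * (1 - q / 2) ^ m) := by
      rw [Finset.sum_mul]
      apply Finset.sum_congr rfl
      intro J _
      ring
    have h2 := sum_pow_card_le hq0 Js (d + 1) hJc hC1 (by
      rw [hq, ← hn]
      have : (n : ℝ) * (C / n) = C := by field_simp
      rw [this])
    have h3 : (1 - q / 2) ^ m ≤ Real.exp (-(8 * D)) := by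
      refine le_trans (one_sub_pow_le (y := q / 2) (by positivity) (by linarith) m) ?_
      apply Real.exp_le_exp.mpr
      have h4 : (n : ℝ) ≤ 8 ^ d * (2 * m) := by
        have : n ≤ 8 ^ d * (2 * m) := le_trans hV' (Nat.mul_le_mul_left _ hm2)
        exact_mod_cast this
      have h5 : 8 * (D : ℝ) ≤ q / 2 * m := by
        rw [hq, hC, hc]
        unfold cc
        push_cast
        rw [div_div, div_mul_eq_mul_div, le_div_iff₀ (by positivity)]
        nlinarith
      linarith
    have hnn : 0 ≤ (1 - q / 2) ^ m := by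
      apply pow_nonneg; linarith
    calc ∑ J ∈ Js, q ^ J.card * 2 ^ (4 * D) * (1 - q / 2) ^ m
        = (∑ J ∈ Js, q ^ J.card) * (2 ^ (4 * D) * (1 - q / 2) ^ m) := h1
      _ ≤ (((d + 1 : ℕ) : ℝ) + 1) * C ^ (d + 1) * (2 ^ (4 * D) * Real.exp (-(8 * D))) := by
          apply mul_le_mul h2 _ (by positivity) (by positivity)
          exact mul_le_mul_of_nonneg_left h3 (by positivity)
      _ = _ := by rw [hC]; push_cast; ring
  -- the binomial coefficient
  have hzpos : 0 < z := by
    rw [hz]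
    exact Nat.div_pos hn1 (by have := cc_pos d; omega)
  have hnz : (n : ℝ) ≤ 48 * c * z := by
    have h1 : n < 24 * cc d * (z + 1) := by
      have := Nat.lt_mul_div_succ n (by have := cc_pos d; omega : 0 < 24 * cc d)
      rw [← hz] at this
      exact this
    have h2 : n ≤ 48 * cc d * z := by
      have : 24 * cc d * (z + 1) ≤ 48 * cc d * z := by nlinarith
      omega
    rw [hc]
    exact_mod_cast h2
  have hz0 : (0 : ℝ) < z := by exact_mod_cast hzpos
  have hch : ((s.choose z : ℕ) : ℝ) ≤ (48 * Real.exp 1 * c) ^ z := by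
    refine le_trans (choose_le s z hzpos) ?_
    apply pow_le_pow_left₀ (by positivity)
    have hsn : (s : ℝ) ≤ n := by
      exact_mod_cast Finset.card_le_univ V'
    rw [div_le_iff₀ hz0]
    have he : 0 < Real.exp 1 := Real.exp_pos 1
    calc Real.exp 1 * s ≤ Real.exp 1 * (48 * c * z) := by
          apply mul_le_mul_of_nonneg_left _ he.le
          linarith
      _ = _ := by ring
  have hloc0 : 0 ≤ ∑ J ∈ Js, q ^ J.card * 2 ^ (4 * D) * (1 - q / 2) ^ m := by
    apply Finset.sum_nonneg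
    intro J _
    have : 0 ≤ (1 - q / 2) ^ m := by
      apply pow_nonneg; linarith
    positivity
  calc ((s.choose z : ℕ) : ℝ) * (∑ J ∈ Js, q ^ J.card * 2 ^ (4 * D) * (1 - q / 2) ^ m) ^ z
      ≤ (48 * Real.exp 1 * c) ^ z *
        ((d + 2) * (c * D) ^ (d + 1) * 2 ^ (4 * D) * Real.exp (-(8 * D))) ^ z := by
        apply mul_le_mul hch _ (by positivity) (by positivity)
        exact pow_le_pow_left₀ hloc0 hloc _
    _ = (48 * Real.exp 1 * c *
        ((d + 2) * (c * D) ^ (d + 1) * 2 ^ (4 * D) * Real.exp (-(8 * D)))) ^ z := by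
        rw [← mul_pow]
    _ ≤ (1 / 2) ^ z := by
        apply pow_le_pow_left₀ (by positivity) hB

end Pool.Agent.Recon
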