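import Pool.Agent.Recon.Upper

open Finset Module

set_option linter.unusedSectionVars false

namespace Pool.Agent.Recon

variable {V : Type*} [Fintype V] [DecidableEq V]

/-- the good event -/
def Good {d : ℕ} (x : V → EuclideanSpace ℝ (Fin d)) (ω : Sym2 V → Bool) : Prop :=
  ∃ K : Finset V, Fintype.card V ≤ 2 * 8 ^ d * K.card ∧ ∀ y : V → EuclideanSpace ℝ (Fin d),
    Cons x ω y → ∀ u ∈ K, ∀ w ∈ K, dist (y u) (y w) = dist (x u) (x w)

theorem upper_prob (d D : ℕ) (hD : 2 ≤ D)
    (hA : 8 * Real.exp 1 * (Real.exp 1 * cc d) ≤ 4 ^ D)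
    (hB : 48 * Real.exp 1 * cc d * ((d + 2) * ((cc d : ℝ) * D) ^ (d + 1) * 2 ^ (4 * D) *
      Real.exp (-(8 * D))) ≤ 1 / 2)
    (hC' : (384 * (QQ d : ℝ) + 1) ^ d * Real.exp (-((cc d : ℝ) * D / (64 * QQ d))) ≤ 1 / 2)
    (x : V → EuclideanSpace ℝ (Fin d))
    (hn1 : 2 * QQ d ≤ Fintype.card V) (hn2 : 2 * (cc d * D) ≤ Fintype.card V)
    (hn3 : 16 * QQ d ≤ cc d * D * Fintype.card V) (hn4 : 24 * cc d ≤ Fintype.card V) :
    Pr (bw ((cc d * D : ℝ) / Fintype.card V)) (fun ω : Sym2 V → Bool => ¬ Good x ω)
      ≤ (Real.exp (-((cc d : ℝ) * D * Fintype.card V / (8 * QQ d))) + (1 / 2) ^ (Fintype.card V))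
        + (8 * (Real.exp 1 * cc d) / Fintype.card V + (1 / 2) ^ (Fintype.card V / (24 * cc d))) := by
  classical
  obtain ⟨A, hA1, hA2⟩ := exists_flat x
  have hfr : finrank ℝ (EuclideanSpace ℝ (Fin d)) = d := by simp
  rw [hfr] at hA1
  set V' := inF x A with hV'
  set n := Fintype.card V with hn
  have hcpos := cc_pos d
  have hQpos := QQ_pos d
  have hnpos : 0 < n := by omega
  have hn0 : (0 : ℝ) < n := by exact_mod_cast hnpos
  have hDpos : 0 < D := by omega
  have hD0 : (0 : ℝ) < D := by exact_mod_cast hDpos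
  have hc0 : (0 : ℝ) < cc d := by exact_mod_cast hcpos
  set q : ℝ := (cc d * D : ℝ) / n with hq
  have hq0 : 0 ≤ q := by positivity
  have hn2' : 2 * ((cc d : ℝ) * D) ≤ n := by exact_mod_cast hn2
  have hq1 : q ≤ 1 / 2 := by
    rw [hq, div_le_iff₀ hn0]; linarith
  set S := n / (12 * cc d) with hS
  set z := n / (24 * cc d) with hz
  set M := n ^ 2 / QQ d with hM
  set Js : Finset (Finset V) := Finset.univ.filter (fun J =>
    J.card ≤ d + 1 ∧ affineSpan ℝ (x '' (J : Set V)) < A) with hJs
  set hull : Finset V → Finset V := fun J => inF x (affineSpan ℝ (x '' (J : Set V))) with hhull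
  -- the three bad events
  have e1 := P1 (V := V) d D hDpos hC' x V' hn1 hn2 hn3
  have e2 := sparse (V := V) (C := (cc d : ℝ) * D) (by positivity) hD hnpos hq
    (by linarith : q ≤ 1) (a := Real.exp 1 * cc d) (by field_simp) hA S (by
      have he : Real.exp 1 ≤ 3 := by
        have := Real.exp_one_lt_d9
        linarith
      have h1 : (S : ℝ) * (12 * cc d) ≤ n := by
        have : S * (12 * cc d) ≤ n := Nat.div_mul_le_self _ _
        exact_mod_cast this
      calc (S : ℝ) * (4 * (Real.exp 1 * cc d)) ≤ S * (4 * (3 * cc d)) := by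
            apply mul_le_mul_of_nonneg_left _ (by positivity)
            apply mul_le_mul_of_nonneg_left _ (by norm_num)
            exact mul_le_mul_of_nonneg_right he hc0.le
        _ = S * (12 * cc d) := by ring
        _ ≤ n := h1)
  have hJcap : ∀ J ∈ Js, 8 * (V' ∩ hull J).card ≤ V'.card := by
    intro J hJ
    rw [hJs, Finset.mem_filter] at hJ
    have h1 := hA2 _ hJ.2.2
    have h2 : (V' ∩ hull J).card ≤ (inF x (affineSpan ℝ (x '' (J : Set V)))).card :=
      Finset.card_le_card Finset.inter_subset_right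
    omega
  have e3 := P3 (V := V) d D hDpos hB V' hull Js (by
      intro J _ u hu
      rw [hhull]
      rw [mem_inF]
      exact subset_affineSpan ℝ _ (Set.mem_image_of_mem x (Finset.mem_coe.mpr hu)))
    (by
      intro J hJ
      rw [hJs, Finset.mem_filter] at hJ
      exact hJ.2.1)
    hA1 hJcap hn4 hn2
  refine le_trans (Pr_mono (bw_nonneg hq0 (by linarith)) ?_) (le_trans
    (Pr_or_le (bw_nonneg hq0 (by linarith)) _ _) (add_le_add e1 (le_trans
    (Pr_or_le (bw_nonneg hq0 (by linarith)) _ _) (add_le_add e2 e3))))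
  -- deterministic implication
  intro ω hω
  by_contra hcon
  push Not at hcon
  obtain ⟨h1, h2, h3⟩ := hcon
  apply hω
  -- arithmetic
  set s := V'.card with hs
  have h24 : 24 * cc d * z ≤ n := Nat.mul_div_le _ _
  have h12 : 12 * cc d * S ≤ n := Nat.mul_div_le _ _
  have hS384 : 384 * S ≤ s := by
    have h1 : 8 ^ d * (384 * S) ≤ 8 ^ d * s := by
      calc 8 ^ d * (384 * S) = 12 * cc d * S := by unfold cc; ring
        _ ≤ n := h12
        _ ≤ 8 ^ d * s := hA1
    exact le_of_mul_le_mul_left h1 (by positivity)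
  have hspos : 0 < s := by
    by_contra hcon
    have : s = 0 := by omega
    rw [this] at hA1
    omega
  have hm1 : (d + 1) * (S / (d + 1)) ≤ S := Nat.mul_div_le _ _
  have h2z : 2 * z ≤ S := by
    have : z = S / 2 := by
      rw [hz, hS, Nat.div_div_eq_div_mul]
      congr 1
      ring
    omega
  have hk1 : 2 * M ≤ (s / 4 + 1) * (S / (d + 1) + 1) := by
    have a1 : M * QQ d ≤ n ^ 2 := Nat.div_mul_le_self _ _
    have a2 : n ≤ 8 ^ d * (4 * (s / 4 + 1)) := by
      refine le_trans hA1 (Nat.mul_le_mul_left _ ?_)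
      omega
    have a3 : n ≤ 12 * cc d * ((d + 1) * (S / (d + 1) + 1)) := by
      have b1 : n < 12 * cc d * (S + 1) := by
        have := Nat.lt_mul_div_succ n (by omega : 0 < 12 * cc d)
        rw [← hS] at this
        exact this
      have b2 : S + 1 ≤ (d + 1) * (S / (d + 1) + 1) := by
        have := Nat.lt_mul_div_succ S (by omega : 0 < d + 1)
        exact this
      exact le_trans b1.le (Nat.mul_le_mul_left _ b2)
    have a4 : n ^ 2 ≤ 8 ^ d * (4 * (s / 4 + 1)) * (12 * cc d * ((d + 1) * (S / (d + 1) + 1))) := by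
      rw [sq]; exact Nat.mul_le_mul a2 a3
    have a5 : QQ d * (2 * M) ≤ QQ d * ((s / 4 + 1) * (S / (d + 1) + 1)) := by
      calc QQ d * (2 * M) = 2 * (M * QQ d) := by ring
        _ ≤ 2 * (8 ^ d * (4 * (s / 4 + 1)) * (12 * cc d * ((d + 1) * (S / (d + 1) + 1)))) :=
            Nat.mul_le_mul_left _ (le_trans a1 a4)
        _ = QQ d * ((s / 4 + 1) * (S / (d + 1) + 1)) := by unfold QQ; ring
    exact le_of_mul_le_mul_left a5 hQpos
  -- apply the deterministic theorem
  obtain ⟨K, hK1, hK2, hK3⟩ := det_main x A V' (fun v hv => mem_inF.mp hv) ω (s / 4) (s / 8)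
    (S / (d + 1)) D S z M hDpos
    (by
      intro F hF B hB hBF
      have b1 := hA2 F hF
      have b2 : B.card ≤ (inF x F).card := Finset.card_le_card (by
        intro v hv
        rw [mem_inF]
        exact hBF v hv)
      omega)
    (by rw [hfr]; omega)
    (by rw [hfr]; exact hm1)
    h2z hk1
    (by
      intro y hy B hB hbad
      by_contra hcon
      push Not at hcon
      -- the full bad set
      set B' := V'.sym2.filter (badE x y) with hB'
      have hBB' : B ⊆ B' := by
        intro e he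
        rw [hB', Finset.mem_filter]
        exact ⟨hB he, hbad e he⟩
      have hmem : B' ∈ bads x V' M := by
        unfold bads
        rw [Finset.mem_filter]
        exact ⟨Finset.mem_univ _, le_trans hcon (Finset.card_le_card hBB'), y, rfl⟩
      obtain ⟨e, he, hne⟩ := h1 B' hmem
      rw [hB', Finset.mem_filter] at he
      have hbe := he.2
      induction e using Sym2.ind with
      | _ u v =>
        rw [badE_mk] at hbe
        apply hbe
        apply hy
        refine ⟨?_, by simpa using hne⟩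
        intro huv
        rw [huv] at hbe
        simp at hbe)
    (by
      intro W hW hWS
      by_contra hcon
      push Not at hcon
      exact absurd hcon (not_le.mpr (h2 W hW hWS)))
    (by
      intro Z hZ hZc
      by_contra hcon
      push Not at hcon
      obtain ⟨v, hv, hvJ⟩ := h3 Z hZ hZc
      obtain ⟨F, hF, hFB⟩ := hcon v hv
      have b1 := hFB ((V' \ Z).filter (fun u => ω s(v, u) = true ∧ x u ∉ F))
        (Finset.filter_subset _ _) (fun u hu => (Finset.mem_filter.mp hu).2)
      obtain ⟨J, hJ1, hJ2, hJ3⟩ := exists_J x ((V' \ Z).filter (fun u => ω s(v, u) = true ∧ x u ∈ F))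
      rw [hfr] at hJ2
      have hJle : affineSpan ℝ (x '' (J : Set V)) ≤ F := by
        rw [hJ3, affineSpan_le]
        rintro _ ⟨u, hu, rfl⟩
        exact (Finset.mem_filter.mp (Finset.mem_coe.mp hu)).2.2
      have hJmem : J ∈ Js := by
        rw [hJs, Finset.mem_filter]
        exact ⟨Finset.mem_univ _, hJ2, lt_of_le_of_lt hJle hF⟩
      have b2 := hvJ J hJmem (hJ1.trans (Finset.filter_subset _ _))
        (fun u hu => (Finset.mem_filter.mp (hJ1 hu)).2.1)
      have b3 : ((V' \ Z) \ hull J).filter (fun u => ω s(v, u) = true) ⊆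
          (V' \ Z).filter (fun u => ω s(v, u) = true ∧ x u ∉ F) := by
        intro u hu
        rw [Finset.mem_filter, Finset.mem_sdiff] at hu
        rw [Finset.mem_filter]
        refine ⟨hu.1.1, hu.2, ?_⟩
        intro huF
        apply hu.1.2
        rw [hhull]
        rw [mem_inF, hJ3]
        apply subset_affineSpan ℝ _
        apply Set.mem_image_of_mem x
        rw [Finset.mem_coe, Finset.mem_filter]
        exact ⟨hu.1.1, hu.2, huF⟩
      have b4 := Finset.card_le_card b3
      omega)
  refine ⟨K, ?_, hK3⟩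
  have b1 : s ≤ 2 * K.card := by omega
  calc n ≤ 8 ^ d * s := hA1
    _ ≤ 8 ^ d * (2 * K.card) := Nat.mul_le_mul_left _ b1
    _ = 2 * 8 ^ d * K.card := by ring

end Pool.Agent.Recon
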